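import Pool.Agent.TD.A2

/-! Block A: equality of differentials of log functions. -/

open scoped ContDiff Topology

namespace Pool.Agent.TD

namespace LogSpace

variable {X Φ : Type} [TopologicalSpace X] (L : LogSpace X Φ) {p q : ℕ} {z : X}

/-- The raw forms which are smooth superforms in the functions of `s`. -/
def dlsSF (p q : ℕ) (s : Finset Φ) : Submodule ℝ (Raw Φ p q) where
  carrier := {θ | IsSF s θ}
  zero_mem' := IsSF.zero s
  add_mem' := fun h k => IsSF.add h k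
  smul_mem' := fun c _ h => IsSF.smul c h

/-- A linear combination of coordinates which is constant on `P` gives a vanishing form. -/
theorem dls_vanOn {n : ℕ} {u : Finset Φ} {f : Φ} {g : Fin n → Φ} (hf : f ∈ u)
    (hg : ∀ i, g i ∈ u) (a : Fin n → ℝ) (b : ℝ) {P : Set (u → ℝ)}
    (h : ∀ y ∈ P, y ⟨f, hf⟩ = b + ∑ i, a i * y ⟨g i, hg i⟩) :
    VanOn u (dlg f - ∑ i, a i • dlg (g i) : Raw Φ 1 0) P := by
  intro σ _ hσP x w v _ _ hv
  let ℓ : (u → ℝ) →ₗ[ℝ] ℝ := LinearMap.proj ⟨f, hf⟩ - ∑ i, a i • LinearMap.proj ⟨g i, hg i⟩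
  have hℓ : ∀ y, ℓ y = y ⟨f, hf⟩ - ∑ i, a i * y ⟨g i, hg i⟩ := fun y => by
    simp [ℓ, LinearMap.sum_apply]
  have hk : vectorSpan ℝ σ ≤ LinearMap.ker ℓ := by
    rw [vectorSpan, Submodule.span_le]
    rintro _ ⟨y, hy, y', hy', rfl⟩
    have h1 := h y (hσP hy)
    have h2 := h y' (hσP hy')
    show ℓ (y - y') = 0
    rw [map_sub, hℓ, hℓ, h1, h2]
    ring
  have h0 : ℓ (rs u (v 0)) = 0 := hk (hv 0)
  rw [hℓ] at h0
  have e : (dlg f - ∑ i, a i • dlg (g i) : Raw Φ 1 0) x w v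
      = v 0 f - ∑ i, a i * v 0 (g i) := by
    simp [dlg, Finset.sum_apply]
  rw [e]
  exact h0

theorem dls_van {n : ℕ} {f : Φ} {g : Fin n → Φ} (hf : z ∈ L.dom f) (hg : ∀ i, z ∈ L.dom (g i))
    (a : Fin n → ℝ) (b : ℝ) (e : ∀ᶠ z' in 𝓝 z, L.lf f z' = b + ∑ i, a i * L.lf (g i) z') :
    L.Van z (dlg f - ∑ i, a i • dlg (g i) : Raw Φ 1 0) := by
  classical
  let u : Finset Φ := insert f (Finset.univ.image g)
  have hfu : f ∈ u := Finset.mem_insert_self _ _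
  have hgu : ∀ i, g i ∈ u := fun i =>
    Finset.mem_insert_of_mem (Finset.mem_image_of_mem g (Finset.mem_univ i))
  have hu : ∀ f' ∈ u, z ∈ L.dom f' := by
    intro f' hf'
    rcases Finset.mem_insert.1 hf' with rfl | h
    · exact hf
    · obtain ⟨i, -, rfl⟩ := Finset.mem_image.1 h
      exact hg i
  have hev : ∀ᶠ z' in 𝓝 z, ∀ f' ∈ u, z' ∈ L.dom f' := by
    rw [Filter.eventually_all_finset]
    exact fun f' hf' => (L.isOpen_dom f').mem_nhds (hu f' hf')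
  have hsf : IsSF u (dlg f - ∑ i, a i • dlg (g i) : Raw Φ 1 0) := by
    have h : (dlg f - ∑ i, a i • dlg (g i) : Raw Φ 1 0) ∈ dlsSF 1 0 u := by
      refine Submodule.sub_mem _ (isSF_dlg hfu) (Submodule.sum_mem _ fun i _ => ?_)
      exact Submodule.smul_mem _ _ (isSF_dlg (hgu i))
    exact h
  refine ⟨u, hsf, {z' | (L.lf f z' = b + ∑ i, a i * L.lf (g i) z') ∧ ∀ f' ∈ u, z' ∈ L.dom f'},
    e.and hev, fun f' hf' z' hz' => hz'.2 f' hf', ?_⟩
  refine dls_vanOn hfu hgu a b ?_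
  rintro _ ⟨z', hz', rfl⟩
  exact hz'.1

theorem dlS_eq_sum {n : ℕ} {f : Φ} {g : Fin n → Φ} (hf : z ∈ L.dom f) (hg : ∀ i, z ∈ L.dom (g i))
    (a : Fin n → ℝ) (b : ℝ) (e : ∀ᶠ z' in 𝓝 z, L.lf f z' = b + ∑ i, a i * L.lf (g i) z') :
    L.dlS f hf = ∑ i, a i • L.dlS (g i) (hg i) := by
  let G : Fin n → L.SFm 1 0 z := fun i =>
    ⟨dlg (g i), ⟨{g i}, isSF_dlg (Finset.mem_singleton_self (g i)), by simpa using hg i⟩⟩
  have h1 : ∑ i, a i • L.dlS (g i) (hg i) = L.qk 1 0 z (∑ i, a i • G i) := by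
    rw [map_sum]
    refine Finset.sum_congr rfl fun i _ => ?_
    rw [map_smul]
    rfl
  have h2 : ((∑ i, a i • G i : L.SFm 1 0 z) : Raw Φ 1 0) = ∑ i, a i • dlg (g i) := by
    simp [G]
  have h3 : L.SFat z (∑ i, a i • dlg (g i) : Raw Φ 1 0) := by
    rw [← h2]; exact (∑ i, a i • G i : L.SFm 1 0 z).2
  have h4 : L.qk 1 0 z (∑ i, a i • G i) = L.germ (∑ i, a i • dlg (g i) : Raw Φ 1 0) h3 := by
    unfold germ
    congr 1
    exact Subtype.ext h2
  rw [h1, h4]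
  exact (L.germ_eq_iff _ _).2 (L.dls_van hf hg a b e)

/-- Equality of the functions: `log |f|` and `log |g|` equal near `z` have equal differentials. -/
theorem dlS_eq_of_lf {f g : Φ} (hf : z ∈ L.dom f) (hg : z ∈ L.dom g) (b : ℝ)
    (e : ∀ᶠ z' in 𝓝 z, L.lf f z' = b + L.lf g z') : L.dlS f hf = L.dlS g hg := by
  have h := L.dlS_eq_sum (n := 1) (g := fun _ => g) hf (fun _ => hg) (fun _ => 1) b
    (by simpa using e)
  simpa using h

end LogSpace

end Pool.Agent.TD
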