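import Pool.Agent.TD.A.Span

/-! Block A: identities on stalks. -/

open scoped ContDiff Topology

namespace Pool.Agent.TD

section RawAux
variable {Φ : Type} {p q : ℕ}

lemma isCst_dlg (f : Φ) : IsCst (dlg f) := fun _ _ _ _ => rfl

lemma isCst_one0 : IsCst (one0 : Raw Φ 0 0) := fun _ _ _ _ => rfl

lemma IsCst.wdg1 {η : Raw Φ 1 0} {θ : Raw Φ p q} (hη : IsCst η) (hθ : IsCst θ) :
    IsCst (wdg1 η θ) := by
  intro x x' w v
  show (∑ j : Fin (p + 1), _) = ∑ j : Fin (p + 1), _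
  refine Finset.sum_congr rfl fun j _ => ?_
  rw [hη x x' ![] ![v j], hθ x x' w (fun i => v (j.succAbove i))]

lemma isCst_symR : ∀ (p : ℕ) (f : Fin p → Φ), IsCst (symR p f)
  | 0, _ => isCst_one0
  | p + 1, f => IsCst.wdg1 (isCst_dlg (f 0)) (isCst_symR p (fun i => f i.succ))

lemma IsCst.add {θ η : Raw Φ p q} (h : IsCst θ) (k : IsCst η) : IsCst (θ + η) := by
  intro x x' w v
  show θ x w v + η x w v = θ x' w v + η x' w v
  rw [h x x' w v, k x x' w v]

lemma IsCst.smul (c : ℝ) {θ : Raw Φ p q} (h : IsCst θ) : IsCst (c • θ) := by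
  intro x x' w v
  show c * θ x w v = c * θ x' w v
  rw [h x x' w v]

lemma isCst_zero : IsCst (0 : Raw Φ p q) := fun _ _ _ _ => rfl

lemma one0_mul0 (θ : Raw Φ p q) : mul0 one0 θ = θ := by
  funext x w v
  show (1 : ℝ) * θ x w v = θ x w v
  rw [one_mul]

end RawAux

namespace LogSpace

variable {X Φ : Type} [TopologicalSpace X] (L : LogSpace X Φ) {p q : ℕ} {z : X}

variable {L} in
theorem SFat.neg {z : X} {θ : Raw Φ p q} (h : L.SFat z θ) :
    L.SFat z (-θ) := (L.SFm p q z).neg_mem h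

lemma germ_neg {z : X} {θ : Raw Φ p q} (h : L.SFat z θ) :
    L.germ (-θ) h.neg = - L.germ θ h :=
  (L.qk p q z).map_neg ⟨θ, h⟩

lemma germ_of_eq_zero {z : X} {θ : Raw Φ p q} (e : θ = 0) (h : L.SFat z θ) :
    L.germ θ h = 0 :=
  (L.germ_congr e h (SFat.zero L)).trans L.germ_zero

theorem ddS_ddS (c : L.Stalk p q z) : L.ddS p (q + 1) z (L.ddS p q z c) = 0 := by
  obtain ⟨θ, h, rfl⟩ := L.exists_germ c
  rw [ddS_germ, ddS_germ]
  obtain ⟨s, hs, hd⟩ := h
  exact L.germ_of_eq_zero (dd_dd hs) _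

theorem ddG_ddG (c : L.G p q) : L.ddG p (q + 1) (L.ddG p q c) = 0 := by
  apply Subtype.ext; funext z; exact L.ddS_ddS _

theorem ddS_oneS : L.ddS 0 0 z (L.oneS z) = 0 := by
  unfold oneS
  rw [ddS_germ]
  exact L.germ_of_eq_zero (dd_cst isCst_one0) _

theorem muS_oneS (c : L.Stalk p q z) : L.muS p q z (L.oneS z) c = c := by
  obtain ⟨θ, h, rfl⟩ := L.exists_germ c
  unfold oneS
  rw [muS_germ]
  exact L.germ_congr (one0_mul0 θ) _ _

theorem wdS_anti (a b : L.Stalk 1 0 z) (c : L.Stalk p q z) :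
    L.wdS (p + 1) q z a (L.wdS p q z b c) = - L.wdS (p + 1) q z b (L.wdS p q z a c) := by
  obtain ⟨θ, h, rfl⟩ := L.exists_germ c
  obtain ⟨η, k, rfl⟩ := L.exists_germ a
  obtain ⟨η', k', rfl⟩ := L.exists_germ b
  rw [wdS_germ, wdS_germ, wdS_germ, wdS_germ, ← germ_neg]
  have hh := h
  obtain ⟨s, hs, hd⟩ := hh
  exact L.germ_congr (wdg1_anti hs) _ _

theorem wdS_self (a : L.Stalk 1 0 z) (c : L.Stalk p q z) :
    L.wdS (p + 1) q z a (L.wdS p q z a c) = 0 := by
  obtain ⟨θ, h, rfl⟩ := L.exists_germ c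
  obtain ⟨η, k, rfl⟩ := L.exists_germ a
  rw [wdS_germ, wdS_germ]
  have hh := h
  obtain ⟨s, hs, hd⟩ := hh
  exact L.germ_of_eq_zero (wdg1_self hs) _

/-- Products of a germ of a differential with closed forms. -/
theorem ddS_wdS {a : L.Stalk 1 0 z} (ha : a ∈ L.L1 z) (c : L.Stalk p q z) :
    L.ddS (p + 1) q z (L.wdS p q z a c) = L.wdS p (q + 1) z a (L.ddS p q z c) := by
  unfold L1 at ha
  induction ha using Submodule.span_induction with
  | mem x hx =>
    obtain ⟨f, hf, rfl⟩ := hx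
    obtain ⟨θ, h, rfl⟩ := L.exists_germ c
    unfold dlS
    rw [wdS_germ, ddS_germ, ddS_germ, wdS_germ]
    have hh := h
    obtain ⟨s, hs, hd⟩ := hh
    exact L.germ_congr (dd_wdg1 (isCst_dlg f) hs) _ _
  | zero => simp only [map_zero, LinearMap.zero_apply]
  | add x y _ _ hx hy => simp only [map_add, LinearMap.add_apply, hx, hy]
  | smul r x _ hx => simp only [map_smul, LinearMap.smul_apply, hx]

/-- The symbols of the functions are the germs of the forms `symR`. -/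
theorem symS_dlS (f : Fin p → Φ) (h : ∀ i, z ∈ L.dom (f i)) : ∃ k : L.SFat z (symR p f),
    L.symS p (fun i => L.dlS (f i) (h i)) = L.germ (symR p f) k := by
  induction p with
  | zero => exact ⟨⟨∅, isSF_one0 ∅, by simp⟩, rfl⟩
  | succ p ih =>
    obtain ⟨k, hk⟩ := ih (fun i => f i.succ) (fun i => h i.succ)
    have k0 : L.SFat z (dlg (f 0)) :=
      ⟨{f 0}, isSF_dlg (Finset.mem_singleton_self (f 0)), by simpa using h 0⟩
    refine ⟨SFat.wdg1 L k0 k, ?_⟩
    show L.wdS p 0 z (L.dlS (f 0) (h 0)) (L.symS p (fun i => L.dlS (f i.succ) (h i.succ))) = _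
    rw [hk]
    rfl

theorem Lp_closed {c : L.Stalk p 0 z} (hc : c ∈ L.Lp p z) : L.ddS p 0 z c = 0 := by
  unfold Lp at hc
  induction hc using Submodule.span_induction with
  | mem x hx =>
    obtain ⟨f, hf, rfl⟩ := hx
    obtain ⟨k, hk⟩ := L.symS_dlS f hf
    rw [hk, ddS_germ]
    exact L.germ_of_eq_zero (dd_cst (isCst_symR p f)) _
  | zero => exact map_zero _
  | add x y _ _ hx hy => rw [map_add, hx, hy, add_zero]
  | smul r x _ hx => rw [map_smul, hx, smul_zero]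

/-- Germs of constant forms are combinations of symbols. -/
theorem germ_cst_mem {θ : Raw Φ p 0} (hc : IsCst θ) (h : L.SFat z θ) :
    L.germ θ h ∈ L.Lp p z := by
  have hh := h
  obtain ⟨u, hu, hd⟩ := hh
  have key : ∃ k : L.SFat z θ, L.germ θ k ∈ L.Lp p z := by
    have hspan := cst_span hu hc
    clear hc h hu
    induction hspan using Submodule.span_induction with
    | mem x hx =>
      obtain ⟨f, hf, rfl⟩ := hx
      obtain ⟨k, hk⟩ := L.symS_dlS (z := z) f (fun i => hd _ (hf i))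
      refine ⟨k, ?_⟩
      rw [← hk]
      exact Submodule.subset_span ⟨f, fun i => hd _ (hf i), rfl⟩
    | zero => exact ⟨SFat.zero L, by rw [germ_zero]; exact Submodule.zero_mem _⟩
    | add x y _ _ hx hy =>
      obtain ⟨k1, h1⟩ := hx
      obtain ⟨k2, h2⟩ := hy
      exact ⟨k1.add k2, by rw [germ_add L k1 k2]; exact Submodule.add_mem _ h1 h2⟩
    | smul r x _ hx =>
      obtain ⟨k1, h1⟩ := hx
      exact ⟨k1.smul r, by rw [germ_smul L r k1]; exact Submodule.smul_mem _ _ h1⟩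
  obtain ⟨k, hk⟩ := key
  exact hk

/-- Elements of `Lp` are germs of constant forms. -/
theorem exists_cst {c : L.Stalk p 0 z} (hc : c ∈ L.Lp p z) :
    ∃ θ, IsCst θ ∧ ∃ h : L.SFat z θ, c = L.germ θ h := by
  unfold Lp at hc
  induction hc using Submodule.span_induction with
  | mem x hx =>
    obtain ⟨f, hf, rfl⟩ := hx
    obtain ⟨k, hk⟩ := L.symS_dlS f hf
    exact ⟨symR p f, isCst_symR p f, k, hk⟩
  | zero => exact ⟨0, isCst_zero, SFat.zero L, L.germ_zero.symm⟩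
  | add x y _ _ hx hy =>
    obtain ⟨θ, hθ, k1, rfl⟩ := hx
    obtain ⟨η, hη, k2, rfl⟩ := hy
    exact ⟨θ + η, hθ.add hη, k1.add k2, (L.germ_add k1 k2).symm⟩
  | smul r x _ hx =>
    obtain ⟨θ, hθ, k1, rfl⟩ := hx
    exact ⟨r • θ, hθ.smul r, k1.smul r, (L.germ_smul r k1).symm⟩

end LogSpace

end Pool.Agent.TD
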