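import Pool.Agent.TD.A.Mor2

/-! Block A: injectivity of the pull back. -/

open scoped ContDiff Topology

namespace Pool.Agent.TD

namespace LogSpace

variable {X Φ : Type} [TopologicalSpace X] (L : LogSpace X Φ) {p q : ℕ} {z : X}

/-- The finite set in `Van` can be enlarged. -/
theorem Van.enlarge {θ : Raw Φ p q} (h : L.Van z θ) (t : Finset Φ) (ht : ∀ f ∈ t, z ∈ L.dom f) :
    ∃ u : Finset Φ, t ⊆ u ∧ IsSF u θ ∧ ∃ V ∈ 𝓝 z,
      (∀ f ∈ u, V ⊆ L.dom f) ∧ VanOn u θ (L.trop u '' V) := by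
  classical
  obtain ⟨s, hs, V, hV, hVs, hvs⟩ := h
  have h1 : s ⊆ s ∪ t := Finset.subset_union_left
  have h2 : t ⊆ s ∪ t := Finset.subset_union_right
  have hW : ∀ᶠ z' in 𝓝 z, ∀ f ∈ t, z' ∈ L.dom f := by
    rw [Filter.eventually_all_finset]
    exact fun f hf => (L.isOpen_dom f).mem_nhds (ht f hf)
  refine ⟨s ∪ t, h2, hs.mono h1, V ∩ {z' | ∀ f ∈ t, z' ∈ L.dom f},
    Filter.inter_mem hV hW, ?_, ?_⟩
  · intro f hf
    rcases Finset.mem_union.1 hf with h | h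
    exacts [Set.inter_subset_left.trans (hVs f h), fun z' hz' => hz'.2 f h]
  · refine VanOn.refine h1 (P := L.trop s '' V) ?_ hvs
    rintro _ ⟨_, ⟨z', hz', rfl⟩, rfl⟩
    exact ⟨z', hz'.1, (L.rst_trop h1 z').symm⟩

end LogSpace

namespace Mor

variable {X Φ X' Φ' : Type} [TopologicalSpace X] [TopologicalSpace X'] {L : LogSpace X Φ}
  {L' : LogSpace X' Φ'} (m : Mor L L') {p q : ℕ} {z : X}

/-- If the pull back of a form vanishes at `z`, so does the form at the image of `z`. -/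
theorem van_of_pull (h : m.AffAt z) (ho : ∀ V ∈ 𝓝 z, m.toFun '' V ∈ 𝓝 (m.toFun z))
    {θ : Raw Φ' p q} (hθ : L'.SFat (m.toFun z) θ) (hv : L.Van z (pullR m.ix θ)) :
    L'.Van (m.toFun z) θ := by
  classical
  obtain ⟨s', hs', hd'⟩ := hθ
  obtain ⟨u, htu, -, V, hV, hVd, hvan⟩ := LogSpace.Van.enlarge L hv (s'.image m.ix) (by
    intro f hf
    obtain ⟨f', hf', rfl⟩ := Finset.mem_image.1 hf
    exact m.dom_sub _ _ (hd' f' hf'))
  have hzV : z ∈ V := mem_of_mem_nhds hV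
  have hch : ∀ f : u, ∃ (n : ℕ) (g : Fin n → Φ') (a : Fin n → ℝ) (b : ℝ),
      (∀ i, m.toFun z ∈ L'.dom (g i)) ∧
        ∀ᶠ z' in 𝓝 z, L.lf f.1 z' = b + ∑ i, a i * L.lf (m.ix (g i)) z' :=
    fun f => h f.1 (hVd f.1 f.2 hzV)
  choose n g a b hg haff using hch
  set s'' : Finset Φ' := s' ∪ Finset.univ.biUnion fun f : u => Finset.univ.image (g f) with hs''
  have hss : s' ⊆ s'' := Finset.subset_union_left
  have hgs : ∀ (f : u) (i : Fin (n f)), g f i ∈ s'' := by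
    intro f i
    refine Finset.mem_union_right _ (Finset.mem_biUnion.2 ⟨f, Finset.mem_univ _, ?_⟩)
    exact Finset.mem_image.2 ⟨i, Finset.mem_univ _, rfl⟩
  have hds : ∀ f' ∈ s'', m.toFun z ∈ L'.dom f' := by
    intro f' hf'
    rcases Finset.mem_union.1 hf' with h1 | h1
    · exact hd' f' h1
    · obtain ⟨f, -, h2⟩ := Finset.mem_biUnion.1 h1
      obtain ⟨i, -, rfl⟩ := Finset.mem_image.1 h2
      exact hg f i
  -- the affine map
  let Al : (s'' → ℝ) →ₗ[ℝ] (u → ℝ) :=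
    LinearMap.pi fun f => ∑ i, a f i • LinearMap.proj (⟨g f i, hgs f i⟩ : s'')
  let A : (s'' → ℝ) →ᵃ[ℝ] (u → ℝ) := Al.toAffineMap + AffineMap.const ℝ (s'' → ℝ) b
  have hAl : ∀ y f, Al y f = ∑ i, a f i * y ⟨g f i, hgs f i⟩ := by
    intro y f
    simp only [Al, LinearMap.pi_apply, LinearMap.sum_apply, LinearMap.smul_apply,
      LinearMap.proj_apply, smul_eq_mul]
  have hA : ∀ y f, A y f = Al y f + b f := fun y f => rfl
  have hAlin : A.linear = Al := by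
    show Al + 0 = Al
    rw [add_zero]
  -- the neighbourhoods
  have hW1 : ∀ᶠ z' in 𝓝 z, ∀ f' ∈ s'', m.toFun z' ∈ L'.dom f' := by
    rw [Filter.eventually_all_finset]
    exact fun f' hf' => m.cont.continuousAt.eventually ((L'.isOpen_dom f').mem_nhds (hds f' hf'))
  have hW2 : ∀ᶠ z' in 𝓝 z, ∀ f : u, L.lf f.1 z' = b f + ∑ i, a f i * L.lf (m.ix (g f i)) z' :=
    Filter.eventually_all.2 haff
  set V1 : Set X := V ∩ ({z' | ∀ f' ∈ s'', m.toFun z' ∈ L'.dom f'} ∩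
    {z' | ∀ f : u, L.lf f.1 z' = b f + ∑ i, a f i * L.lf (m.ix (g f i)) z'}) with hV1
  have hV1n : V1 ∈ 𝓝 z := Filter.inter_mem hV (Filter.inter_mem hW1 hW2)
  have htrop : ∀ z' ∈ V1, A (L'.trop s'' (m.toFun z')) = L.trop u z' := by
    rintro z' ⟨-, h1, h2⟩
    funext f
    rw [hA, hAl]
    show (∑ i, a f i * L'.lf (g f i) (m.toFun z')) + b f = L.lf f.1 z'
    rw [h2 f, add_comm]
    congr 1
    refine Finset.sum_congr rfl fun i _ => ?_
    rw [m.lf_eq _ _ (h1 _ (hgs f i))]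
  have hcoord : ∀ z' ∈ V1, ∀ (f' : Φ') (hf' : f' ∈ s'), A (L'.trop s'' (m.toFun z'))
      ⟨m.ix f', htu (Finset.mem_image_of_mem m.ix hf')⟩ =
        L'.trop s'' (m.toFun z') ⟨f', hss hf'⟩ := by
    intro z' hz' f' hf'
    rw [htrop z' hz']
    show L.lf (m.ix f') z' = L'.lf f' (m.toFun z')
    exact m.lf_eq _ _ (hz'.2.1 _ (hss hf'))
  refine ⟨s'', hs'.mono hss, m.toFun '' V1, ho _ hV1n, ?_, ?_⟩
  · rintro f' hf' _ ⟨z', hz', rfl⟩
    exact hz'.2.1 f' hf'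
  · intro σ hσ hσP x w v hx hw hv'
    have hpt : ∀ y ∈ σ, ∀ (f' : Φ') (hf' : f' ∈ s'),
        A y ⟨m.ix f', htu (Finset.mem_image_of_mem m.ix hf')⟩ = y ⟨f', hss hf'⟩ := by
      intro y hy f' hf'
      obtain ⟨_, ⟨z', hz', rfl⟩, rfl⟩ := hσP hy
      exact hcoord z' hz' f' hf'
    have hvec : ∀ y ∈ vectorSpan ℝ σ, ∀ (f' : Φ') (hf' : f' ∈ s'),
        Al y ⟨m.ix f', htu (Finset.mem_image_of_mem m.ix hf')⟩ = y ⟨f', hss hf'⟩ := by
      intro y hy f' hf'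
      have hle : vectorSpan ℝ σ ≤ LinearMap.ker
          ((LinearMap.proj (⟨m.ix f', htu (Finset.mem_image_of_mem m.ix hf')⟩ : u)).comp Al -
            (LinearMap.proj (⟨f', hss hf'⟩ : s'') : (s'' → ℝ) →ₗ[ℝ] ℝ)) := by
        rw [vectorSpan_def, Submodule.span_le]
        rintro _ ⟨y1, hy1, y2, hy2, rfl⟩
        simp only [SetLike.mem_coe, LinearMap.mem_ker, LinearMap.sub_apply, LinearMap.comp_apply,
          LinearMap.proj_apply, vsub_eq_sub, map_sub]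
        have e1 := hpt y1 hy1 f' hf'
        have e2 := hpt y2 hy2 f' hf'
        rw [hA] at e1 e2
        linarith
      have h1 := hle hy
      simp only [LinearMap.mem_ker, LinearMap.sub_apply, LinearMap.comp_apply,
        LinearMap.proj_apply] at h1
      linarith
    obtain ⟨x₁, hx₁⟩ := rs_surjective u (A (rs s'' x))
    have hw₁ : ∀ i, ∃ y, rs u y = Al (rs s'' (w i)) := fun i => rs_surjective u _
    have hv₁ : ∀ j, ∃ y, rs u y = Al (rs s'' (v j)) := fun j => rs_surjective u _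
    choose w₁ hw₁ using hw₁
    choose v₁ hv₁ using hv₁
    have himg : Convex ℝ (A '' σ) := hσ.affine_image A
    have hsub : A '' σ ⊆ L.trop u '' V := by
      rintro _ ⟨y, hy, rfl⟩
      obtain ⟨_, ⟨z', hz', rfl⟩, rfl⟩ := hσP hy
      exact ⟨z', hz'.1, (htrop z' hz').symm⟩
    have hspan : ∀ y ∈ vectorSpan ℝ σ, Al y ∈ vectorSpan ℝ (A '' σ) := by
      intro y hy
      rw [← AffineMap.map_vectorSpan, hAlin]
      exact Submodule.mem_map_of_mem hy
    have key := hvan (A '' σ) himg hsub x₁ w₁ v₁ (by rw [hx₁]; exact ⟨_, hx, rfl⟩)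
      (fun i => by rw [hw₁]; exact hspan _ (hw i)) (fun j => by rw [hv₁]; exact hspan _ (hv' j))
    obtain ⟨α, -, hα⟩ := hs'
    have e0 : ∀ (y : Φ → ℝ) (y' : Φ' → ℝ), (∀ (f' : Φ') (hf' : f' ∈ s'),
        rs u y ⟨m.ix f', htu (Finset.mem_image_of_mem m.ix hf')⟩ = rs s'' y' ⟨f', hss hf'⟩) →
        rs s' (y ∘ m.ix) = rs s' y' := by
      intro y y' hyy
      funext f'
      exact hyy f'.1 f'.2
    have ex : rs s' (x₁ ∘ m.ix) = rs s' x := e0 _ _ fun f' hf' => by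
      rw [hx₁]; exact hpt _ hx f' hf'
    have ew : ∀ i, rs s' (w₁ i ∘ m.ix) = rs s' (w i) := fun i => e0 _ _ fun f' hf' => by
      rw [hw₁]; exact hvec _ (hw i) f' hf'
    have ev : ∀ j, rs s' (v₁ j ∘ m.ix) = rs s' (v j) := fun j => e0 _ _ fun f' hf' => by
      rw [hv₁]; exact hvec _ (hv' j) f' hf'
    have e1 : pullR m.ix θ x₁ w₁ v₁ = θ x w v := by
      show θ (x₁ ∘ m.ix) (fun i => w₁ i ∘ m.ix) (fun j => v₁ j ∘ m.ix) = _
      rw [hα, hα]
      simp only [ex, ew, ev]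
    rw [← e1]
    exact key

theorem pullS_injective (h : m.AffAt z) (ho : ∀ V ∈ 𝓝 z, m.toFun '' V ∈ 𝓝 (m.toFun z)) :
    Function.Injective (m.pullS p q z) := by
  rw [injective_iff_map_eq_zero]
  intro c hc
  obtain ⟨θ, hθ, rfl⟩ := L'.exists_germ c
  rw [m.pullS_germ hθ, L.germ_eq_zero] at hc
  rw [L'.germ_eq_zero]
  exact m.van_of_pull h ho hθ hc

end Mor

end Pool.Agent.TD
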