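import Pool.Agent.TD.A.Cut

/-! Block A: softness. -/

open scoped ContDiff Topology

namespace Pool.Agent.TD

namespace LogSpace

variable {X Φ : Type} [TopologicalSpace X] (L : LogSpace X Φ) {p q : ℕ} {z : X}

/-- Softness: a section over a compact set extends to a global section. -/
theorem extend [LocallyCompactSpace X] [T2Space X] (hC : L.CutOff) {Z : Set X}
    (hZ : IsCompact Z) (s : ∀ z, L.Stalk p q z) (hs : ∀ z ∈ Z, ∃ θ : Raw Φ p q,
      ∀ᶠ z' in 𝓝 z, z' ∈ Z → ∃ h : L.SFat z' θ, s z' = L.germ θ h) :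
    ∃ c : L.G p q, ∀ z ∈ Z, c.1 z = s z := by
  have key : ∃ K : Set X, IsCompact K ∧ Z ⊆ K ∧ K ⊆ Z ∧
      ∃ c : L.G p q, ∀ z ∈ K, c.1 z = s z := by
    refine hZ.induction_on (p := fun A : Set X => ∃ K : Set X, IsCompact K ∧ A ⊆ K ∧ K ⊆ Z ∧
      ∃ c : L.G p q, ∀ z ∈ K, c.1 z = s z) ?_ ?_ ?_ ?_
    · exact ⟨∅, isCompact_empty, Set.Subset.rfl, Set.empty_subset _, 0,
        fun z hz => absurd hz (Set.notMem_empty z)⟩
    · rintro A B hAB ⟨K, hK, hBK, hKZ, c, hc⟩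
      exact ⟨K, hK, hAB.trans hBK, hKZ, c, hc⟩
    · rintro A B ⟨K1, hK1, hA, hKZ1, c1, hc1⟩ ⟨K2, hK2, hB, hKZ2, c2, hc2⟩
      obtain ⟨c, h1, h2⟩ := L.glue hC hK1 hK2 c1 c2
        (fun z hz => (hc1 z hz.1).trans (hc2 z hz.2).symm)
      refine ⟨K1 ∪ K2, hK1.union hK2, Set.union_subset_union hA hB,
        Set.union_subset hKZ1 hKZ2, c, ?_⟩
      rintro z (hz | hz)
      · exact (h1 z hz).trans (hc1 z hz)
      · exact (h2 z hz).trans (hc2 z hz)
    · intro x hx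
      obtain ⟨θ, hθ⟩ := hs x hx
      obtain ⟨hx1, -⟩ := hθ.self_of_nhds hx
      obtain ⟨c, hc⟩ := L.extend_germ hC hx1
      have hev : ∀ᶠ z' in 𝓝 x, z' ∈ Z → c.1 z' = s z' := by
        refine (hθ.and hc).mono ?_
        rintro z' ⟨h1, ⟨h2, e2⟩⟩ hz'
        obtain ⟨h3, e3⟩ := h1 hz'
        rw [e2, e3]
      obtain ⟨K, hKx, hKsub, hK⟩ := local_compact_nhds hev
      refine ⟨K ∩ Z, Filter.inter_mem (mem_nhdsWithin_of_mem_nhds hKx) self_mem_nhdsWithin,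
        K ∩ Z, hK.inter_right hZ.isClosed, Set.Subset.rfl, Set.inter_subset_right, c, ?_⟩
      rintro z ⟨hzK, hzZ⟩
      exact hKsub hzK hzZ
  obtain ⟨K, -, hZK, -, c, hc⟩ := key
  exact ⟨c, fun z hz => hc z (hZK hz)⟩

/-- Gluing of sections along an increasing open cover. -/
theorem inf_glue (U : ℕ → Set X) (hU : ∀ n, IsOpen (U n)) (hm : Monotone U) (hc : ⋃ n, U n = Set.univ)
    (c : ℕ → L.G p q) (h : ∀ n, ∀ z ∈ U n, (c (n + 1)).1 z = (c n).1 z) :
    ∃ c' : L.G p q, ∀ n, ∀ z ∈ U n, c'.1 z = (c n).1 z := by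
  have hex : ∀ z, ∃ n, z ∈ U n := fun z => Set.mem_iUnion.1 (hc ▸ Set.mem_univ z)
  choose k hk using hex
  have hstep : ∀ n d : ℕ, ∀ z ∈ U n, (c (n + d)).1 z = (c n).1 z := by
    intro n d
    induction d with
    | zero => exact fun z _ => rfl
    | succ d ih =>
      intro z hz
      exact (h (n + d) z (hm (Nat.le_add_right n d) hz)).trans (ih z hz)
  have hall : ∀ n, ∀ z ∈ U n, (c (k z)).1 z = (c n).1 z := by
    intro n z hz
    rcases le_total (k z) n with hle | hle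
    · have := hstep (k z) (n - k z) z (hk z)
      rw [Nat.add_sub_cancel' hle] at this
      exact this.symm
    · have := hstep n (k z - n) z hz
      rw [Nat.add_sub_cancel' hle] at this
      exact this
  refine ⟨⟨fun z => (c (k z)).1 z, fun z => ?_⟩, hall⟩
  obtain ⟨θ, hθ⟩ := (c (k z)).2 z
  refine ⟨θ, (hθ.and ((hU (k z)).mem_nhds (hk z))).mono ?_⟩
  rintro z' ⟨⟨h1, e1⟩, hz'⟩
  exact ⟨h1, (hall (k z) z' hz').trans e1⟩

end LogSpace

end Pool.Agent.TD
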