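import Pool.Agent.TD.A0

/-!
# Superforms: the left product with a form of type (1,0) is anticommutative
(MP_90358a_ag, block A, module ALT)
-/

set_option autoImplicit false

open scoped ContDiff Topology

namespace Pool.Agent.TD.A

variable {Φ Φ' : Type} {p q : ℕ}

/-- The exchange of the two removed indices. -/
def exch (n : ℕ) : Fin (n + 2) × Fin (n + 1) ≃ Fin (n + 2) × Fin (n + 1) where
  toFun a := (a.1.succAbove a.2, a.2.predAbove a.1)
  invFun a := (a.1.succAbove a.2, a.2.predAbove a.1)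
  left_inv a := by
    refine Prod.ext ?_ ?_
    · exact Fin.succAbove_succAbove_predAbove a.1 a.2
    · exact Fin.predAbove_predAbove_succAbove a.1 a.2
  right_inv a := by
    refine Prod.ext ?_ ?_
    · exact Fin.succAbove_succAbove_predAbove a.1 a.2
    · exact Fin.predAbove_predAbove_succAbove a.1 a.2

theorem exch_apply (n : ℕ) (a : Fin (n + 2) × Fin (n + 1)) :
    exch n a = (a.1.succAbove a.2, a.2.predAbove a.1) := rfl

/-- The double sum over the pairs of removed indices is antisymmetric. -/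
theorem dsum_anti {M : Type} (n : ℕ) (f g : M → ℝ) (h : (Fin n → M) → ℝ) (v : Fin (n + 2) → M) :
    ∑ j : Fin (n + 2), (-1 : ℝ) ^ (j : ℕ) * f (v j) *
      (∑ i : Fin (n + 1), (-1 : ℝ) ^ (i : ℕ) * g (v (j.succAbove i)) *
        h (fun k => v (j.succAbove (i.succAbove k)))) =
    - ∑ j : Fin (n + 2), (-1 : ℝ) ^ (j : ℕ) * g (v j) *
      (∑ i : Fin (n + 1), (-1 : ℝ) ^ (i : ℕ) * f (v (j.succAbove i)) *
        h (fun k => v (j.succAbove (i.succAbove k)))) := by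
  have key : ∀ f g : M → ℝ, ∑ j : Fin (n + 2), (-1 : ℝ) ^ (j : ℕ) * f (v j) *
      (∑ i : Fin (n + 1), (-1 : ℝ) ^ (i : ℕ) * g (v (j.succAbove i)) *
        h (fun k => v (j.succAbove (i.succAbove k)))) =
      ∑ a : Fin (n + 2) × Fin (n + 1), (-1 : ℝ) ^ ((a.1 : ℕ) + (a.2 : ℕ)) * f (v a.1) *
        g (v (a.1.succAbove a.2)) * h (fun k => v (a.1.succAbove (a.2.succAbove k))) := by
    intro f g
    rw [Fintype.sum_prod_type]
    refine Finset.sum_congr rfl fun j _ => ?_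
    rw [Finset.mul_sum]
    refine Finset.sum_congr rfl fun i _ => ?_
    rw [pow_add]
    ring
  rw [key f g, key g f, ← Finset.sum_neg_distrib, ← (exch n).sum_comp]
  refine Finset.sum_congr rfl fun a _ => ?_
  rw [exch_apply]
  have h1 : ∀ k : Fin n, (a.1.succAbove a.2).succAbove ((a.2.predAbove a.1).succAbove k) =
      a.1.succAbove (a.2.succAbove k) :=
    fun k => Fin.succAbove_succAbove_succAbove_predAbove a.1 a.2 k
  have h2 : (a.1.succAbove a.2).succAbove (a.2.predAbove a.1) = a.1 :=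
    Fin.succAbove_succAbove_predAbove a.1 a.2
  have h3 : (-1 : ℝ) ^ ((a.1.succAbove a.2 : ℕ) + (a.2.predAbove a.1 : ℕ)) =
      - (-1 : ℝ) ^ ((a.1 : ℕ) + (a.2 : ℕ)) := Fin.neg_one_pow_succAbove_add_predAbove a.1 a.2
  simp only [h1, h2, h3]
  ring

theorem wdg1_anti (η η' : Raw Φ 1 0) (θ : Raw Φ p q) :
    wdg1 η (wdg1 η' θ) = - wdg1 η' (wdg1 η θ) := by
  funext x w v
  exact dsum_anti p (fun y => η x ![] ![y]) (fun y => η' x ![] ![y]) (fun y => θ x w y) v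

theorem wdg1_self (η : Raw Φ 1 0) (θ : Raw Φ p q) : wdg1 η (wdg1 η θ) = 0 := by
  funext x w v
  have h := congrFun (congrFun (congrFun (wdg1_anti η η θ) x) w) v
  have h1 : wdg1 η (wdg1 η θ) x w v = - wdg1 η (wdg1 η θ) x w v := h
  show wdg1 η (wdg1 η θ) x w v = 0
  linarith

theorem pullR_wdg1 (φ : Φ' → Φ) (η : Raw Φ' 1 0) (θ : Raw Φ' p q) :
    pullR φ (wdg1 η θ) = wdg1 (pullR φ η) (pullR φ θ) := by
  funext x w v
  show ∑ j : Fin (p + 1), (-1 : ℝ) ^ (j : ℕ) * η (x ∘ φ) ![] ![v j ∘ φ] *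
      θ (x ∘ φ) (fun i => w i ∘ φ) (fun i => v (j.succAbove i) ∘ φ) =
    ∑ j : Fin (p + 1), (-1 : ℝ) ^ (j : ℕ) * pullR φ η x ![] ![v j] *
      θ (x ∘ φ) (fun i => w i ∘ φ) (fun i => v (j.succAbove i) ∘ φ)
  refine Finset.sum_congr rfl fun j _ => ?_
  have h2 : (![v j ∘ φ] : Fin 1 → Φ' → ℝ) = fun i => (![v j] : Fin 1 → Φ → ℝ) i ∘ φ := by
    funext i
    rw [Subsingleton.elim i 0]
    rfl
  have h3 : η (x ∘ φ) ![] ![v j ∘ φ] = pullR φ η x ![] ![v j] := by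
    show η (x ∘ φ) ![] ![v j ∘ φ] = η (x ∘ φ) (fun i => (![] : Fin 0 → Φ → ℝ) i ∘ φ)
      (fun i => (![v j] : Fin 1 → Φ → ℝ) i ∘ φ)
    rw [← h2]
    congr 1
    exact Subsingleton.elim _ _
  rw [h3]

theorem pullR_mul0 (φ : Φ' → Φ) (g : Raw Φ' 0 0) (θ : Raw Φ' p q) :
    pullR φ (mul0 g θ) = mul0 (pullR φ g) (pullR φ θ) := by
  funext x w v
  unfold pullR mul0
  have h1 : (![] : Fin 0 → Φ' → ℝ) = fun i => (![] : Fin 0 → Φ → ℝ) i ∘ φ :=
    Subsingleton.elim _ _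
  rw [h1]

end Pool.Agent.TD.A
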