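import Pool.Agent.TD.A0

/-! Block A: the differential and products with constant forms and functions. -/

open scoped ContDiff Topology

namespace Pool.Agent.TD.A

variable {Φ Φ' : Type} {p q : ℕ}

/-- A smooth raw form is differentiable along lines. -/
theorem diffAt {s : Finset Φ} {θ : Raw Φ p q} (h : IsSF s θ) (x y : Φ → ℝ) (w : Fin q → Φ → ℝ)
    (v : Fin p → Φ → ℝ) : DifferentiableAt ℝ (fun t : ℝ => θ (x + t • y) w v) 0 := by
  obtain ⟨α, hα, hθ⟩ := h
  have e : (fun t : ℝ => θ (x + t • y) w v) = fun t : ℝ =>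
      α (rs s x + t • rs s y) (fun i => rs s (w i)) (fun j => rs s (v j)) := by
    funext t
    rw [hθ]
    rfl
  rw [e]
  have h1 : ContDiff ℝ ∞ (fun t : ℝ => rs s x + t • rs s y) :=
    contDiff_const.add (contDiff_id.smul contDiff_const)
  have h2 : ContDiff ℝ ∞ (fun t : ℝ => α (rs s x + t • rs s y)) := hα.comp h1
  have h3 := h2.differentiable (by simp) 0
  exact (h3.continuousAlternatingMap_apply_const _).continuousAlternatingMap_apply_const _

theorem dd_cst {θ : Raw Φ p q} (h : IsCst θ) : dd θ = 0 := by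
  funext x w v
  show ∑ i : Fin (q + 1), (-1 : ℝ) ^ (i : ℕ) *
    deriv (fun t : ℝ => θ (x + t • w i) (fun j => w (i.succAbove j)) v) 0 = 0
  refine Finset.sum_eq_zero fun i _ => ?_
  have e : (fun t : ℝ => θ (x + t • w i) (fun j => w (i.succAbove j)) v)
      = fun _ => θ x (fun j => w (i.succAbove j)) v := by
    funext t
    exact h _ _ _ _
  rw [e, deriv_const, mul_zero]

theorem dd_wdg1 {s : Finset Φ} {η : Raw Φ 1 0} {θ : Raw Φ p q} (hη : IsCst η) (h : IsSF s θ) :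
    dd (wdg1 η θ) = wdg1 η (dd θ) := by
  funext x w v
  show ∑ i : Fin (q + 1), (-1 : ℝ) ^ (i : ℕ) * deriv (fun t : ℝ =>
      ∑ j : Fin (p + 1), (-1 : ℝ) ^ (j : ℕ) * η (x + t • w i) ![] ![v j] *
        θ (x + t • w i) (fun k => w (i.succAbove k)) (fun k => v (j.succAbove k))) 0
    = ∑ j : Fin (p + 1), (-1 : ℝ) ^ (j : ℕ) * η x ![] ![v j] *
      ∑ i : Fin (q + 1), (-1 : ℝ) ^ (i : ℕ) * deriv (fun t : ℝ =>
        θ (x + t • w i) (fun k => w (i.succAbove k)) (fun k => v (j.succAbove k))) 0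
  have h1 : ∀ i : Fin (q + 1), deriv (fun t : ℝ =>
      ∑ j : Fin (p + 1), (-1 : ℝ) ^ (j : ℕ) * η (x + t • w i) ![] ![v j] *
        θ (x + t • w i) (fun k => w (i.succAbove k)) (fun k => v (j.succAbove k))) 0
      = ∑ j : Fin (p + 1), (-1 : ℝ) ^ (j : ℕ) * η x ![] ![v j] * deriv (fun t : ℝ =>
        θ (x + t • w i) (fun k => w (i.succAbove k)) (fun k => v (j.succAbove k))) 0 := by
    intro i
    have e : (fun t : ℝ => ∑ j : Fin (p + 1), (-1 : ℝ) ^ (j : ℕ) * η (x + t • w i) ![] ![v j] *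
        θ (x + t • w i) (fun k => w (i.succAbove k)) (fun k => v (j.succAbove k)))
        = fun t : ℝ => ∑ j : Fin (p + 1), ((-1 : ℝ) ^ (j : ℕ) * η x ![] ![v j]) *
        θ (x + t • w i) (fun k => w (i.succAbove k)) (fun k => v (j.succAbove k)) := by
      funext t
      refine Finset.sum_congr rfl fun j _ => ?_
      rw [hη (x + t • w i) x]
    rw [e, deriv_fun_sum fun j _ => (diffAt h x (w i) _ _).const_mul _]
    refine Finset.sum_congr rfl fun j _ => ?_
    rw [deriv_const_mul _ (diffAt h x (w i) _ _)]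
  simp only [h1, Finset.mul_sum]
  rw [Finset.sum_comm]
  refine Finset.sum_congr rfl fun j _ => Finset.sum_congr rfl fun i _ => ?_
  ring

theorem dd_mul0 {s : Finset Φ} {g : Raw Φ 0 0} {θ : Raw Φ p q} (hg : IsCst g) (h : IsSF s θ) :
    dd (mul0 g θ) = mul0 g (dd θ) := by
  funext x w v
  show ∑ i : Fin (q + 1), (-1 : ℝ) ^ (i : ℕ) * deriv (fun t : ℝ =>
      g (x + t • w i) ![] ![] * θ (x + t • w i) (fun k => w (i.succAbove k)) v) 0
    = g x ![] ![] * ∑ i : Fin (q + 1), (-1 : ℝ) ^ (i : ℕ) * deriv (fun t : ℝ =>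
        θ (x + t • w i) (fun k => w (i.succAbove k)) v) 0
  rw [Finset.mul_sum]
  refine Finset.sum_congr rfl fun i _ => ?_
  have e : (fun t : ℝ => g (x + t • w i) ![] ![] *
      θ (x + t • w i) (fun k => w (i.succAbove k)) v)
      = fun t : ℝ => g x ![] ![] * θ (x + t • w i) (fun k => w (i.succAbove k)) v := by
    funext t
    rw [hg (x + t • w i) x]
  rw [e, deriv_const_mul _ (diffAt h x (w i) _ _)]
  ring

theorem dd_leib {s : Finset Φ} {g : Raw Φ 0 0} {θ : Raw Φ p q} (hg : IsSF s g) (h : IsSF s θ)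
    (x : Φ → ℝ) (w : Fin (q + 1) → Φ → ℝ) (v : Fin p → Φ → ℝ) :
    dd (mul0 g θ) x w v = mul0 g (dd θ) x w v
      + ∑ i : Fin (q + 1), (-1 : ℝ) ^ (i : ℕ) * dd g x ![w i] ![] *
        θ x (fun j => w (i.succAbove j)) v := by
  have hdg : ∀ i : Fin (q + 1), dd g x ![w i] ![]
      = deriv (fun t : ℝ => g (x + t • w i) ![] ![]) 0 := by
    intro i
    show ∑ k : Fin (0 + 1), (-1 : ℝ) ^ (k : ℕ) * deriv (fun t : ℝ =>
      g (x + t • (![w i] : Fin 1 → Φ → ℝ) k)
        (fun j => (![w i] : Fin 1 → Φ → ℝ) (k.succAbove j)) ![]) 0 = _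
    rw [Fin.sum_univ_one]
    have e : (fun j : Fin 0 => (![w i] : Fin 1 → Φ → ℝ) ((0 : Fin 1).succAbove j))
        = (![] : Fin 0 → Φ → ℝ) := Subsingleton.elim _ _
    rw [e]
    simp
  show ∑ i : Fin (q + 1), (-1 : ℝ) ^ (i : ℕ) * deriv (fun t : ℝ =>
      g (x + t • w i) ![] ![] * θ (x + t • w i) (fun k => w (i.succAbove k)) v) 0
    = g x ![] ![] * (∑ i : Fin (q + 1), (-1 : ℝ) ^ (i : ℕ) * deriv (fun t : ℝ =>
        θ (x + t • w i) (fun k => w (i.succAbove k)) v) 0)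
      + ∑ i : Fin (q + 1), (-1 : ℝ) ^ (i : ℕ) * dd g x ![w i] ![] *
        θ x (fun j => w (i.succAbove j)) v
  rw [Finset.mul_sum, ← Finset.sum_add_distrib]
  refine Finset.sum_congr rfl fun i _ => ?_
  rw [hdg i]
  have e := deriv_fun_mul (diffAt hg x (w i) ![] ![])
    (diffAt h x (w i) (fun k => w (i.succAbove k)) v)
  rw [e]
  simp only [zero_smul, add_zero]
  ring

end Pool.Agent.TD.A
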