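import Pool.Agent.TD.A.Smo2

/-! Block A: cut-off functions, gluing. -/

open scoped ContDiff Topology

namespace Pool.Agent.TD

namespace LogSpace

variable {X Φ : Type} [TopologicalSpace X] (L : LogSpace X Φ) {p q : ℕ} {z : X}

theorem cutOff_of_local [LocallyCompactSpace X] [T2Space X]
    (h : ∀ z, ∀ V ∈ 𝓝 z, ∃ g, L.Smooth g ∧ (∀ᶠ z' in 𝓝 z, g z' = 1) ∧
      ∃ C, IsClosed C ∧ C ⊆ V ∧ ∀ z', z' ∉ C → g z' = 0) : L.CutOff := by
  intro K V hK hV hKV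
  refine IsCompact.induction_on (p := fun s => ∃ g : X → ℝ, L.Smooth g ∧
    (∀ᶠ z in 𝓝ˢ s, g z = 1) ∧ (∃ C, IsClosed C ∧ C ⊆ V ∧ ∀ z, z ∉ C → g z = 0)) hK ?_ ?_ ?_ ?_
  · refine ⟨fun _ => 0, L.smooth_const 0, by simp, ∅, isClosed_empty, Set.empty_subset _,
      fun _ _ => rfl⟩
  · rintro s t hst ⟨g, hg, hg1, hC⟩
    exact ⟨g, hg, hg1.filter_mono (nhdsSet_mono hst), hC⟩
  · rintro s t ⟨g, hg, hg1, C, hC, hCV, hC0⟩ ⟨g', hg', hg1', C', hC', hCV', hC0'⟩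
    have hF : ContDiff ℝ ∞ (fun x : Fin 2 → ℝ => 1 - (1 - x 0) * (1 - x 1)) := by fun_prop
    have hs := Smooth.comp (L := L) (g := ![g, g']) (by
      intro i
      fin_cases i
      · exact hg
      · exact hg') hF
    refine ⟨_, hs, ?_, C ∪ C', hC.union hC', Set.union_subset hCV hCV', ?_⟩
    · rw [nhdsSet_union, Filter.eventually_sup]
      constructor
      · filter_upwards [hg1] with z hz
        show 1 - (1 - g z) * (1 - g' z) = 1
        rw [hz]; ring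
      · filter_upwards [hg1'] with z hz
        show 1 - (1 - g z) * (1 - g' z) = 1
        rw [hz]; ring
    · intro z hz
      rw [Set.mem_union, not_or] at hz
      show 1 - (1 - g z) * (1 - g' z) = 0
      rw [hC0 z hz.1, hC0' z hz.2]; ring
  · intro z hz
    obtain ⟨g, hg, hg1, hC⟩ := h z V (hV.mem_nhds (hKV hz))
    refine ⟨interior {z' | g z' = 1}, mem_nhdsWithin_of_mem_nhds
      (interior_mem_nhds.mpr hg1), g, hg, ?_, hC⟩
    exact Filter.mem_of_superset isOpen_interior.mem_nhdsSet_self interior_subset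

theorem isClosed_supp (c : L.G p q) : IsClosed (L.supp c) := by
  rw [← isOpen_compl_iff, isOpen_iff_mem_nhds]
  intro z hz
  have hz0 : c.1 z = 0 := by
    by_contra h; exact hz h
  obtain ⟨θ, hθ⟩ := c.2 z
  obtain ⟨h0, e0⟩ := hθ.self_of_nhds
  have hv : L.Van z θ := (L.germ_eq_zero h0).mp (e0.symm.trans hz0)
  filter_upwards [hθ, Van.nhds L hv] with z' h1 h2
  obtain ⟨h3, e3⟩ := h1
  intro hz'
  exact hz' (e3.trans ((L.germ_eq_zero h3).mpr h2))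

theorem supp_ddG (c : L.G p q) : L.supp (L.ddG p q c) ⊆ L.supp c := by
  intro z hz hc
  apply hz
  show L.ddS p q z (c.1 z) = 0
  rw [hc, map_zero]

/-- If the function of a `(0,0)`-germ is constant near `z`, the germ is a multiple of `1`. -/
lemma germ00_cst {s : Finset Φ} {a : (s → ℝ) → ℝ} {r : ℝ}
    (h : L.SFat z (fun x _ _ => a (rs s x) : Raw Φ 0 0))
    (e : ∀ᶠ z' in 𝓝 z, a (L.trop s z') = r) : L.germ _ h = r • L.oneS z := by
  classical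
  obtain ⟨t, ht, htd⟩ := h
  have h1 : L.SFat z (one0 : Raw Φ 0 0) := ⟨∅, isSF_one0 ∅, by simp⟩
  have h2 : r • L.oneS z = L.germ (r • (one0 : Raw Φ 0 0)) (h1.smul r) :=
    (L.germ_smul r h1).symm
  rw [h2, germ_eq_iff]
  have hsf : IsSF t ((fun x _ _ => a (rs s x) : Raw Φ 0 0) - r • one0) := by
    have h3 := ht.add ((isSF_one0 t).smul (-r))
    have h4 : (fun x _ _ => a (rs s x) : Raw Φ 0 0) + (-r) • one0
        = (fun x _ _ => a (rs s x) : Raw Φ 0 0) - r • one0 := by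
      rw [neg_smul, sub_eq_add_neg]
    rwa [h4] at h3
  have hd : ∀ᶠ z' in 𝓝 z, ∀ f ∈ t, z' ∈ L.dom f := by
    rw [Filter.eventually_all_finset]
    exact fun f hf => (L.isOpen_dom f).mem_nhds (htd f hf)
  refine ⟨t, hsf, {z' | (∀ f ∈ t, z' ∈ L.dom f) ∧ a (L.trop s z') = r}, hd.and e,
    fun f hf z' hz' => hz'.1 f hf, ?_⟩
  intro σ hσ hσP x w v hx hw hv
  obtain ⟨z', hz', ez'⟩ := hσP hx
  obtain ⟨α, hα, hα'⟩ := ht
  have e1 : a (rs s x) = α (rs t x) (fun i => rs t (w i)) (fun j => rs t (v j)) := hα' x w v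
  have e2 : a (L.trop s z') = α (L.trop t z') (fun i => rs t (w i)) (fun j => rs t (v j)) :=
    hα' (fun f => L.lf f z') w v
  show a (rs s x) - r * 1 = 0
  rw [e1, ← ez', ← e2, hz'.2]; ring

lemma toG_cst {g : X → ℝ} {c : L.G 0 0} (hc : ∀ z, ∃ s : Finset Φ,
    ∃ a : (s → ℝ) → ℝ, ContDiff ℝ ∞ a ∧ (∀ᶠ z' in 𝓝 z, g z' = a (L.trop s z')) ∧
      ∀ᶠ z' in 𝓝 z, ∃ h : L.SFat z' (fun x _ _ => a (rs s x) : Raw Φ 0 0),
        c.1 z' = L.germ (fun x _ _ => a (rs s x)) h) {r : ℝ} {z : X}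
    (e : ∀ᶠ z' in 𝓝 z, g z' = r) : c.1 z = r • L.oneS z := by
  obtain ⟨s, a, -, h1, h2⟩ := hc z
  obtain ⟨h3, e3⟩ := h2.self_of_nhds
  rw [e3]
  exact L.germ00_cst h3 ((h1.and e).mono fun z' hz' => hz'.1.symm.trans hz'.2)

/-- Germs extend to global sections. -/
theorem extend_germ [LocallyCompactSpace X] [T2Space X] (hC : L.CutOff) {θ : Raw Φ p q}
    (h : L.SFat z θ) : ∃ c : L.G p q, ∀ᶠ z' in 𝓝 z, ∃ h' : L.SFat z' θ, c.1 z' = L.germ θ h' := by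
  classical
  obtain ⟨V, hVs, hVo, hzV⟩ := mem_nhds_iff.mp (SFat.nhds L h)
  obtain ⟨g, hg, hg1, C, hCc, hCV, hC0⟩ := hC {z} V isCompact_singleton hVo
    (Set.singleton_subset_iff.mpr hzV)
  rw [nhdsSet_singleton] at hg1
  obtain ⟨cg, hcg⟩ := L.exists_toG g hg
  have hV' : ∀ z' ∈ V, L.SFat z' θ := fun z' hz' => hVs hz'
  let c0 : ∀ z', L.Stalk p q z' := fun z' =>
    if hz' : z' ∈ V then L.muS p q z' (cg.1 z') (L.germ θ (hV' z' hz')) else 0
  have hc0 : c0 ∈ L.G p q := by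
    intro z'
    by_cases hz' : z' ∈ V
    · obtain ⟨η, hη⟩ := cg.2 z'
      refine ⟨mul0 η θ, ?_⟩
      filter_upwards [hη, hVo.mem_nhds hz'] with y hy hyV
      obtain ⟨h1, e1⟩ := hy
      refine ⟨SFat.mul0 L h1 (hV' y hyV), ?_⟩
      show (if hy : y ∈ V then L.muS p q y (cg.1 y) (L.germ θ (hV' y hy)) else 0) = _
      rw [dif_pos hyV, e1, muS_germ]
    · refine ⟨0, ?_⟩
      have hz'C : z' ∉ C := fun hh => hz' (hCV hh)
      filter_upwards [hCc.isOpen_compl.mem_nhds hz'C] with y hy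
      refine ⟨SFat.zero L, ?_⟩
      rw [germ_zero]
      show (if hy : y ∈ V then L.muS p q y (cg.1 y) (L.germ θ (hV' y hy)) else 0) = 0
      by_cases hyV : y ∈ V
      · rw [dif_pos hyV]
        have e0 : ∀ᶠ y' in 𝓝 y, g y' = 0 := by
          filter_upwards [hCc.isOpen_compl.mem_nhds hy] with y' hy'
          exact hC0 y' hy'
        rw [L.toG_cst hcg e0, zero_smul, map_zero]
        rfl
      · rw [dif_neg hyV]
  refine ⟨⟨c0, hc0⟩, ?_⟩
  filter_upwards [hVo.mem_nhds hzV, eventually_eventually_nhds.mpr hg1] with y hyV hy1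
  refine ⟨hV' y hyV, ?_⟩
  show (if hy : y ∈ V then L.muS p q y (cg.1 y) (L.germ θ (hV' y hy)) else 0) = _
  rw [dif_pos hyV, L.toG_cst hcg hy1, one_smul, muS_oneS]

theorem glue [LocallyCompactSpace X] [T2Space X] (hC : L.CutOff) {Z1 Z2 : Set X}
    (h1 : IsCompact Z1) (h2 : IsCompact Z2) (c1 c2 : L.G p q)
    (h : ∀ z ∈ Z1 ∩ Z2, c1.1 z = c2.1 z) :
    ∃ c : L.G p q, (∀ z ∈ Z1, c.1 z = c1.1 z) ∧ ∀ z ∈ Z2, c.1 z = c2.1 z := by
  have hSc : IsClosed (L.supp (c1 - c2)) := L.isClosed_supp _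
  have hval : ∀ z, (c1 - c2).1 z = c1.1 z - c2.1 z := fun z => rfl
  have hK1 : IsCompact (Z1 ∩ L.supp (c1 - c2)) := h1.inter_right hSc
  have hK2 : IsCompact (Z2 ∩ L.supp (c1 - c2)) := h2.inter_right hSc
  have hdis : Disjoint (Z1 ∩ L.supp (c1 - c2)) (Z2 ∩ L.supp (c1 - c2)) := by
    rw [Set.disjoint_left]
    rintro z ⟨hz1, hzs⟩ ⟨hz2, -⟩
    apply hzs
    show (c1 - c2).1 z = 0
    rw [hval, h z ⟨hz1, hz2⟩, sub_self]
  obtain ⟨V1, V2, hV1, hV2, hKV1, hKV2, hV⟩ := SeparatedNhds.of_isCompact_isCompact hK1 hK2 hdis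
  obtain ⟨g, hg, hg1, C, hCc, hCV, hC0⟩ := hC _ V1 hK1 hV1 hKV1
  obtain ⟨M, hM1, hM0, hMz⟩ := L.exists_mulG g hg p q
  have hcval : ∀ z, (c2 + M (c1 - c2)).1 z = c2.1 z + (M (c1 - c2)).1 z := fun z => rfl
  refine ⟨c2 + M (c1 - c2), ?_, ?_⟩
  · intro z hz
    rw [hcval]
    by_cases hzs : z ∈ L.supp (c1 - c2)
    · have hz1 : ∀ᶠ z' in 𝓝 z, g z' = 1 := hg1.filter_mono
        (nhds_le_nhdsSet (show z ∈ Z1 ∩ L.supp (c1 - c2) from ⟨hz, hzs⟩))
      rw [hM1 _ _ hz1, hval]; abel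
    · have hz0 : (c1 - c2).1 z = 0 := by
        by_contra hh; exact hzs hh
      rw [hMz _ _ hz0, add_zero]
      rw [hval] at hz0
      exact (sub_eq_zero.mp hz0).symm
  · intro z hz
    rw [hcval]
    by_cases hzs : z ∈ L.supp (c1 - c2)
    · have hz1 : ∀ᶠ z' in 𝓝 z, g z' = 0 := by
        filter_upwards [hV2.mem_nhds (hKV2 ⟨hz, hzs⟩)] with z' hz'
        exact hC0 z' fun hh => Set.disjoint_left.mp hV (hCV hh) hz'
      rw [hM0 _ _ hz1, add_zero]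
    · have hz0 : (c1 - c2).1 z = 0 := by
        by_contra hh; exact hzs hh
      rw [hMz _ _ hz0, add_zero]

end LogSpace

end Pool.Agent.TD
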