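import Pool.Agent.TD.A0

/-! Block A, part EXT: the differential of superforms. -/

open scoped ContDiff Topology

namespace Pool.Agent.TD

section Ext
variable {Φ Φ' : Type} {p q : ℕ}

/-- The exterior derivative of a smooth superform is smooth. -/
lemma extDeriv_contDiff {V F : Type} [NormedAddCommGroup V] [NormedSpace ℝ V]
    [NormedAddCommGroup F] [NormedSpace ℝ F] {n : ℕ} {α : V → V [⋀^Fin n]→L[ℝ] F}
    (hα : ContDiff ℝ ∞ α) : ContDiff ℝ ∞ (extDeriv α) := by
  have h1 : ContDiff ℝ ∞ (fderiv ℝ α) := hα.fderiv_right (by simp)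
  exact (ContinuousLinearMap.contDiff
    (ContinuousAlternatingMap.alternatizeUncurryFinCLM ℝ V F (n := n))).comp h1

/-- The differential in the coordinates of `ℝ^s`. -/
theorem dd_formula {s : Finset Φ} {θ : Raw Φ p q} {α : SForm (s → ℝ) p q} (hα : ContDiff ℝ ∞ α)
    (hθ : ∀ x w v, θ x w v = α (rs s x) (fun i => rs s (w i)) (fun j => rs s (v j))) :
    ∀ x w v, dd θ x w v = extDeriv α (rs s x) (fun i => rs s (w i)) (fun j => rs s (v j)) := by
  intro x w v
  have hd : DifferentiableAt ℝ α (rs s x) := (hα.differentiable (by simp)).differentiableAt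
  rw [extDeriv_apply hd]
  rw [ContinuousAlternatingMap.sum_apply]
  unfold dd
  refine Finset.sum_congr rfl fun i _ => ?_
  rw [← Int.cast_smul_eq_zsmul ℝ]
  push_cast
  rw [ContinuousAlternatingMap.smul_apply, smul_eq_mul]
  congr 1
  have hd2 : DifferentiableAt ℝ (fun y => α y (i.removeNth fun i => rs s (w i))) (rs s x) := by
    exact hd.continuousAlternatingMap_apply_const _
  rw [← fderiv_continuousAlternatingMap_apply_const_apply hd2]
  have hd3 : DifferentiableAt ℝ (fun y => α y (i.removeNth fun i => rs s (w i))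
      (fun j => rs s (v j))) (rs s x) := by
    exact hd2.continuousAlternatingMap_apply_const _
  rw [← hd3.lineDeriv_eq_fderiv]
  unfold lineDeriv
  congr 1
  funext t
  rw [hθ]
  rfl

theorem sf_dd {s : Finset Φ} {θ : Raw Φ p q} (h : IsSF s θ) : IsSF s (dd θ) := by
  obtain ⟨α, hα, hθ⟩ := h
  exact ⟨extDeriv α, extDeriv_contDiff hα, dd_formula hα hθ⟩

theorem dd_add {s : Finset Φ} {θ η : Raw Φ p q} (h : IsSF s θ) (k : IsSF s η) :
    dd (θ + η) = dd θ + dd η := by
  obtain ⟨α, hα, hθ⟩ := h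
  obtain ⟨β, hβ, hη⟩ := k
  funext x w v
  have e : ∀ x w v, (θ + η) x w v
      = (α + β) (rs s x) (fun i => rs s (w i)) (fun j => rs s (v j)) := by
    intro x w v
    show θ x w v + η x w v = _
    rw [hθ, hη]; rfl
  show dd (θ + η) x w v = dd θ x w v + dd η x w v
  rw [dd_formula (hα.add hβ) e, dd_formula hα hθ, dd_formula hβ hη,
    extDeriv_fun_add (hα.differentiable (by simp)).differentiableAt
      (hβ.differentiable (by simp)).differentiableAt]
  rfl

theorem dd_smul {s : Finset Φ} (c : ℝ) {θ : Raw Φ p q} (_h : IsSF s θ) :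
    dd (c • θ) = c • dd θ := by
  funext x w v
  show dd (c • θ) x w v = c * dd θ x w v
  unfold dd
  rw [Finset.mul_sum]
  refine Finset.sum_congr rfl fun i _ => ?_
  have e : (fun t : ℝ => (c • θ) (x + t • w i) (fun j => w (i.succAbove j)) v)
      = fun t : ℝ => c * θ (x + t • w i) (fun j => w (i.succAbove j)) v := rfl
  rw [e, deriv_const_mul_field]
  ring

theorem dd_dd {s : Finset Φ} {θ : Raw Φ p q} (h : IsSF s θ) : dd (dd θ) = 0 := by
  obtain ⟨α, hα, hθ⟩ := h
  funext x w v
  rw [dd_formula (extDeriv_contDiff hα) (dd_formula hα hθ), extDeriv_extDeriv hα (by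
    simp only [minSmoothness_of_isRCLikeNormedField]
    exact WithTop.coe_le_coe.2 le_top)]
  rfl

theorem dd_pullR {s : Finset Φ'} (φ : Φ' → Φ) {θ : Raw Φ' p q} (_h : IsSF s θ) :
    dd (pullR φ θ) = pullR φ (dd θ) := rfl

end Ext

end Pool.Agent.TD
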