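import Pool.Agent.TD.A2

/-! Block A: the homotopy operator. -/

open scoped ContDiff Topology

namespace Pool.Agent.TD

/-- Smoothness of parametric integrals, finite order. -/
theorem contDiff_intg_nat {E : Type} [NormedAddCommGroup E] [NormedSpace ℝ E] [ProperSpace E]
    (n : ℕ) : ∀ {F : Type} [NormedAddCommGroup F] [NormedSpace ℝ F] [CompleteSpace F]
      (f : E → ℝ → F), ContDiff ℝ ∞ (fun p : E × ℝ => f p.1 p.2) →
      ContDiff ℝ n (fun x => ∫ s in (0 : ℝ)..1, f x s) := by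
  induction n with
  | zero =>
    intro F _ _ _ f hf
    have h : Continuous (Function.uncurry f) := hf.continuous
    exact contDiff_zero.2
      (intervalIntegral.continuous_parametric_intervalIntegral_of_continuous' h 0 1)
  | succ n ih =>
    intro F _ _ _ f hf
    let f' : E → ℝ → E →L[ℝ] F := fun x s =>
      (fderiv ℝ (fun p : E × ℝ => f p.1 p.2) (x, s)).comp (ContinuousLinearMap.inl ℝ E ℝ)
    have hdiff : ∀ x s, HasFDerivAt (fun x => f x s) (f' x s) x := fun x s =>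
      HasFDerivAt.comp (g := fun p : E × ℝ => f p.1 p.2) (f := fun e : E => (e, s)) x
        (hf.differentiable (by simp) (x, s)).hasFDerivAt (hasFDerivAt_prodMk_left x s)
    have hf' : ContDiff ℝ ∞ (fun p : E × ℝ => f' p.1 p.2) :=
      (hf.fderiv_right (m := ∞) (by simp)).clm_comp contDiff_const
    have hc : Continuous (fun p : E × ℝ => f' p.1 p.2) := hf'.continuous
    have hc0 : Continuous (fun p : E × ℝ => f p.1 p.2) := hf.continuous
    have e : ((n + 1 : ℕ) : WithTop ℕ∞) = (n : WithTop ℕ∞) + 1 := by push_cast; rfl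
    rw [e, contDiff_succ_iff_hasFDerivAt]
    refine ⟨fun x => ∫ s in (0 : ℝ)..1, f' x s, ih f' hf', fun x => ?_⟩
    obtain ⟨C, hC⟩ := ((isCompact_closedBall x 1).prod
      (isCompact_Icc (a := (0 : ℝ)) (b := 1))).exists_bound_of_continuousOn hc.continuousOn
    refine intervalIntegral.hasFDerivAt_integral_of_dominated_of_fderiv_le
      (s := Metric.closedBall x 1) (bound := fun _ => C)
      (Metric.closedBall_mem_nhds x one_pos) ?_ ?_ ?_ ?_ ?_ ?_
    · exact Filter.Eventually.of_forall fun y =>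
        (hc0.comp (continuous_const.prodMk continuous_id)).aestronglyMeasurable
    · exact (hc0.comp (continuous_const.prodMk continuous_id)).intervalIntegrable _ _
    · exact (hc.comp (continuous_const.prodMk continuous_id)).aestronglyMeasurable
    · refine Filter.Eventually.of_forall fun t ht y hy => hC (y, t) ⟨hy, ?_⟩
      rw [Set.uIoc_of_le zero_le_one] at ht
      exact ⟨ht.1.le, ht.2⟩
    · exact intervalIntegrable_const
    · exact Filter.Eventually.of_forall fun t _ y _ => hdiff y t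

/-- Smoothness of parametric integrals. -/
theorem contDiff_intg {E F : Type} [NormedAddCommGroup E] [NormedSpace ℝ E] [ProperSpace E]
    [NormedAddCommGroup F] [NormedSpace ℝ F] [CompleteSpace F] {f : E → ℝ → F}
    (hf : ContDiff ℝ ∞ (fun p : E × ℝ => f p.1 p.2)) :
    ContDiff ℝ ∞ (fun x => ∫ s in (0 : ℝ)..1, f x s) :=
  contDiff_infty.2 fun n => contDiff_intg_nat n f hf

theorem intg_apply {F : Type} [NormedAddCommGroup F] [NormedSpace ℝ F] [CompleteSpace F]
    (f : ℝ → F) (hf : Continuous f) (A : F →L[ℝ] ℝ) :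
    (∫ s in (0 : ℝ)..1, A (f s)) = A (∫ s in (0 : ℝ)..1, f s) :=
  A.intervalIntegral_comp_comm (hf.intervalIntegrable 0 1)

section Raw
variable {Φ Φ' : Type} {p q : ℕ}

/-- The homotopy operator centred at `x0`. -/
noncomputable def hop (x0 : Φ → ℝ) (θ : Raw Φ p (q + 1)) : Raw Φ p q := fun x w v =>
  ∫ s in (0 : ℝ)..1, s ^ q * θ (x0 + s • (x - x0)) (Fin.cons (x - x0) w) v

/-- The constant form with the value of `θ` at `x0`. -/
def frz (x0 : Φ → ℝ) (θ : Raw Φ p q) : Raw Φ p q := fun _ w v => θ x0 w v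

/-- The integrand of the homotopy operator on superforms. -/
noncomputable def hopI {V : Type} [NormedAddCommGroup V] [NormedSpace ℝ V] (y0 : V)
    (α : SForm V p (q + 1)) (y : V) (s : ℝ) : V [⋀^Fin q]→L[ℝ] (V [⋀^Fin p]→L[ℝ] ℝ) :=
  (α (y0 + s • (y - y0))).curryLeft (s ^ q • (y - y0))

theorem hopI_contDiff {V : Type} [NormedAddCommGroup V] [NormedSpace ℝ V] (y0 : V)
    {α : SForm V p (q + 1)} (hα : ContDiff ℝ ∞ α) :
    ContDiff ℝ ∞ (fun r : V × ℝ => hopI y0 α r.1 r.2) := by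
  have h1 : ContDiff ℝ ∞ (fun r : V × ℝ => y0 + r.2 • (r.1 - y0)) :=
    contDiff_const.add (contDiff_snd.smul (contDiff_fst.sub contDiff_const))
  have h2 : ContDiff ℝ ∞ (fun r : V × ℝ =>
      (ContinuousAlternatingMap.curryLeftLI (𝕜 := ℝ) (E := V) (F := V [⋀^Fin p]→L[ℝ] ℝ)
        (n := q)).toContinuousLinearMap (α (y0 + r.2 • (r.1 - y0)))) :=
    (ContinuousLinearMap.contDiff _).comp (hα.comp h1)
  exact h2.clm_apply ((contDiff_snd.pow q).smul (contDiff_fst.sub contDiff_const))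

theorem hop_sf {u : Finset Φ} {θ : Raw Φ p (q + 1)} (h : IsSF u θ) (x0 : Φ → ℝ) :
    IsSF u (hop x0 θ) := by
  obtain ⟨α, hα, hθ⟩ := h
  have hI := hopI_contDiff (rs u x0) hα
  refine ⟨fun y => ∫ s in (0 : ℝ)..1, hopI (rs u x0) α y s, contDiff_intg hI, fun x w v => ?_⟩
  have hc : Continuous (fun s : ℝ => hopI (rs u x0) α (rs u x) s) :=
    hI.continuous.comp (continuous_const.prodMk continuous_id)
  let A1 : ((u → ℝ) [⋀^Fin q]→L[ℝ] ((u → ℝ) [⋀^Fin p]→L[ℝ] ℝ)) →L[ℝ] ((u → ℝ) [⋀^Fin p]→L[ℝ] ℝ) :=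
    ContinuousAlternatingMap.apply ℝ (u → ℝ) ((u → ℝ) [⋀^Fin p]→L[ℝ] ℝ) (fun i => rs u (w i))
  let A2 : ((u → ℝ) [⋀^Fin p]→L[ℝ] ℝ) →L[ℝ] ℝ :=
    ContinuousAlternatingMap.apply ℝ (u → ℝ) ℝ (fun i => rs u (v i))
  have h2 := intg_apply (fun s : ℝ => hopI (rs u x0) α (rs u x) s) hc (A2.comp A1)
  refine Eq.trans ?_ h2
  unfold hop
  refine intervalIntegral.integral_congr fun s _ => ?_
  show s ^ q * θ (x0 + s • (x - x0)) (Fin.cons (x - x0) w) v = _
  rw [hθ]
  have e : (fun i => rs u (Fin.cons (α := fun _ => Φ → ℝ) (x - x0) w i)) =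
      Matrix.vecCons (rs u x - rs u x0) (fun i => rs u (w i)) := by
    funext i
    refine Fin.cases ?_ (fun j => ?_) i
    · rfl
    · rfl
  rw [e]
  have e2 := ((α (rs u (x0 + s • (x - x0)))).curryLeft).map_smul (s ^ q) (rs u x - rs u x0)
  have e3 : (α (rs u (x0 + s • (x - x0)))).curryLeft (s ^ q • (rs u x - rs u x0))
      (fun i => rs u (w i)) (fun j => rs u (v j)) =
    s ^ q * (α (rs u (x0 + s • (x - x0)))).curryLeft (rs u x - rs u x0)
      (fun i => rs u (w i)) (fun j => rs u (v j)) := by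
    rw [e2]
    rfl
  exact e3.symm

theorem frz_sf {u : Finset Φ} {θ : Raw Φ p q} (h : IsSF u θ) (x0 : Φ → ℝ) :
    IsSF u (frz x0 θ) := by
  obtain ⟨α, hα, hθ⟩ := h
  exact ⟨fun _ => α (rs u x0), contDiff_const, fun x w v => hθ x0 w v⟩

end Raw

end Pool.Agent.TD
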