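import Pool.Agent.TD.A.Hop1

/-! Block A: homotopy formula. -/

open scoped ContDiff Topology
open MeasureTheory

namespace Pool.Agent.TD

namespace Hop2

/-- Differentiation under the integral sign on `[0, 1]`, continuous data. -/
theorem hasDerivAt_int {H H' : ℝ → ℝ → ℝ} (hH : ∀ t, Continuous (H t))
    (hH' : Continuous (fun p : ℝ × ℝ => H' p.1 p.2))
    (hd : ∀ t s, HasDerivAt (fun t => H t s) (H' t s) t) (t0 : ℝ) :
    HasDerivAt (fun t => ∫ s in (0 : ℝ)..1, H t s) (∫ s in (0 : ℝ)..1, H' t0 s) t0 := by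
  have hc : IsCompact (Metric.closedBall t0 1 ×ˢ Set.Icc (0 : ℝ) 1) :=
    (isCompact_closedBall t0 1).prod isCompact_Icc
  obtain ⟨C, hC⟩ := hc.exists_bound_of_continuousOn hH'.continuousOn
  refine (intervalIntegral.hasDerivAt_integral_of_dominated_loc_of_deriv_le
    (s := Metric.closedBall t0 1) (bound := fun _ => C) (F' := H')
    (Metric.closedBall_mem_nhds t0 one_pos)
    (Filter.Eventually.of_forall fun t => (hH t).aestronglyMeasurable)
    ((hH t0).intervalIntegrable 0 1) ?_ ?_ intervalIntegrable_const ?_).2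
  · exact (hH'.comp (continuous_const.prodMk continuous_id)).aestronglyMeasurable
  · refine Filter.Eventually.of_forall fun s hs t ht => hC (t, s) ⟨ht, ?_⟩
    rw [Set.uIoc_of_le zero_le_one] at hs
    exact ⟨hs.1.le, hs.2⟩
  · exact Filter.Eventually.of_forall fun s _ t _ => hd t s

section core
variable {E : Type} [NormedAddCommGroup E] [NormedSpace ℝ E] {q : ℕ}

theorem hasDerivAt_line {n : ℕ} {F : E → E [⋀^Fin n]→L[ℝ] ℝ} (hF : Differentiable ℝ F) (e y : E)
    (w : Fin n → E) (t : ℝ) :
    HasDerivAt (fun t : ℝ => F (e + t • y) w) (fderiv ℝ F (e + t • y) y w) t := by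
  have h1 : HasDerivAt (fun t : ℝ => e + t • y) y t := by
    have := ((hasDerivAt_id t).smul_const y).const_add e
    simpa using this
  have h2 := (hF (e + t • y)).hasFDerivAt.comp_hasDerivAt t h1
  exact (ContinuousAlternatingMap.apply ℝ E ℝ w).hasFDerivAt.comp_hasDerivAt t h2

theorem hasFDerivAt_curryLeft (A : E [⋀^Fin (q + 1)]→L[ℝ] ℝ) :
    HasFDerivAt (fun A : E [⋀^Fin (q + 1)]→L[ℝ] ℝ => A.curryLeft)
      (ContinuousAlternatingMap.curryLeftLI (𝕜 := ℝ) (E := E) (F := ℝ)
        (n := q)).toContinuousLinearMap A :=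
  (ContinuousAlternatingMap.curryLeftLI (𝕜 := ℝ) (E := E) (F := ℝ)
    (n := q)).toContinuousLinearMap.hasFDerivAt

theorem contDiff_ev {n p : ℕ} (v : Fin p → E) :
    ContDiff ℝ ∞ (fun A : E [⋀^Fin n]→L[ℝ] (E [⋀^Fin p]→L[ℝ] ℝ) =>
      (ContinuousLinearMap.compContinuousAlternatingMapCLM ℝ E (E [⋀^Fin p]→L[ℝ] ℝ) ℝ (Fin n)
        (ContinuousAlternatingMap.apply ℝ E ℝ v)) A) := by
  fun_prop

/-- The derivative of the integrand of the homotopy operator. -/
theorem hasDerivAt_intd {F : E → E [⋀^Fin (q + 1)]→L[ℝ] ℝ} (hF : Differentiable ℝ F)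
    (a0 a b : E) (w : Fin q → E) (t s : ℝ) :
    HasDerivAt (fun t : ℝ => s ^ q * F (a0 + s • (a + t • b - a0))
      (Matrix.vecCons (a + t • b - a0) w))
      (s ^ q * (fderiv ℝ F (a0 + s • (a + t • b - a0)) (s • b) (Matrix.vecCons (a + t • b - a0) w) +
        F (a0 + s • (a + t • b - a0)) (Matrix.vecCons b w))) t := by
  have h1 : HasDerivAt (fun t : ℝ => a + t • b - a0) b t := by
    have := (((hasDerivAt_id t).smul_const b).const_add a).sub_const a0
    simpa using this
  have h2 : HasDerivAt (fun t : ℝ => a0 + s • (a + t • b - a0)) (s • b) t :=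
    (h1.const_smul s).const_add a0
  have h3 := (hF (a0 + s • (a + t • b - a0))).hasFDerivAt.comp_hasDerivAt t h2
  have h4 : HasDerivAt (fun t : ℝ => (F (a0 + s • (a + t • b - a0))).curryLeft)
      ((fderiv ℝ F (a0 + s • (a + t • b - a0)) (s • b)).curryLeft) t :=
    HasFDerivAt.comp_hasDerivAt (𝕜 := ℝ) (E := E →L[ℝ] E [⋀^Fin q]→L[ℝ] ℝ)
      (F := E [⋀^Fin (q + 1)]→L[ℝ] ℝ) t (hasFDerivAt_curryLeft _) h3
  have h5 := h4.clm_apply h1
  have h6 := (ContinuousAlternatingMap.apply ℝ E ℝ w).hasFDerivAt.comp_hasDerivAt t h5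
  exact h6.const_mul (s ^ q)

theorem continuous_vecCons {T : Type} [TopologicalSpace T] {G : T → E [⋀^Fin (q + 1)]→L[ℝ] ℝ}
    (hG : Continuous G) {y : T → E} (hy : Continuous y) (w : Fin q → E) :
    Continuous (fun t => G t (Matrix.vecCons (y t) w)) := by
  have h1 : Continuous (fun t => (ContinuousAlternatingMap.curryLeftLI (𝕜 := ℝ) (E := E) (F := ℝ)
    (n := q)) (G t)) :=
    (ContinuousAlternatingMap.curryLeftLI (𝕜 := ℝ) (E := E) (F := ℝ) (n := q)).continuous.comp hG
  have h2 := h1.clm_apply hy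
  exact (ContinuousAlternatingMap.apply ℝ E ℝ w).continuous.comp h2

theorem continuous_app {T : Type} [TopologicalSpace T] {n : ℕ} {G : T → E [⋀^Fin n]→L[ℝ] ℝ}
    (hG : Continuous G) (w : Fin n → E) : Continuous (fun t => G t w) :=
  (ContinuousAlternatingMap.apply ℝ E ℝ w).continuous.comp hG

/-- The homotopy formula in a normed space. -/
theorem core {F : E → E [⋀^Fin (q + 1)]→L[ℝ] ℝ} (hF : ContDiff ℝ ∞ F) (a0 a : E)
    (b : Fin (q + 1) → E) :
    (∑ i : Fin (q + 1), (-1 : ℝ) ^ (i : ℕ) * deriv (fun t : ℝ => ∫ s in (0 : ℝ)..1,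
      s ^ q * F (a0 + s • (a + t • b i - a0))
        (Matrix.vecCons (a + t • b i - a0) (fun j => b (i.succAbove j)))) 0) +
    (∫ s in (0 : ℝ)..1, s ^ (q + 1) * ∑ i : Fin (q + 2), (-1 : ℝ) ^ (i : ℕ) *
      deriv (fun t : ℝ => F (a0 + s • (a - a0) + t • (Matrix.vecCons (a - a0) b i))
        (fun j => Matrix.vecCons (a - a0) b (i.succAbove j))) 0) = F a b := by
  have hd : Differentiable ℝ F := hF.differentiable (by simp)
  have hcF : Continuous F := hF.continuous
  have hcF' : Continuous (fderiv ℝ F) := hF.continuous_fderiv (by simp)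
  set y : E := a - a0 with hy
  -- the derivatives in `dd θ`
  have e2 : ∀ (s : ℝ) (i : Fin (q + 2)),
      deriv (fun t : ℝ => F (a0 + s • y + t • (Matrix.vecCons y b i))
        (fun j => Matrix.vecCons y b (i.succAbove j))) 0 =
      fderiv ℝ F (a0 + s • y) (Matrix.vecCons y b i)
        (fun j => Matrix.vecCons y b (i.succAbove j)) := by
    intro s i
    have := (hasDerivAt_line hd (a0 + s • y) (Matrix.vecCons y b i)
      (fun j => Matrix.vecCons y b (i.succAbove j)) 0).deriv
    rw [zero_smul, add_zero] at this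
    exact this
  -- the derivatives of the integral
  have e1 : ∀ i : Fin (q + 1), deriv (fun t : ℝ => ∫ s in (0 : ℝ)..1,
      s ^ q * F (a0 + s • (a + t • b i - a0))
        (Matrix.vecCons (a + t • b i - a0) (fun j => b (i.succAbove j)))) 0 =
      ∫ s in (0 : ℝ)..1, s ^ q * (fderiv ℝ F (a0 + s • y) (s • b i)
        (Matrix.vecCons y (fun j => b (i.succAbove j))) +
        F (a0 + s • y) (Matrix.vecCons (b i) (fun j => b (i.succAbove j)))) := by
    intro i
    have h1 := (hasDerivAt_int
      (H := fun t s => s ^ q * F (a0 + s • (a + t • b i - a0))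
        (Matrix.vecCons (a + t • b i - a0) (fun j => b (i.succAbove j))))
      (H' := fun t s => s ^ q * (fderiv ℝ F (a0 + s • (a + t • b i - a0)) (s • b i)
        (Matrix.vecCons (a + t • b i - a0) (fun j => b (i.succAbove j))) +
        F (a0 + s • (a + t • b i - a0)) (Matrix.vecCons (b i) (fun j => b (i.succAbove j)))))
      ?_ ?_ (fun t s => hasDerivAt_intd hd a0 a (b i) _ t s) 0).deriv
    · rw [h1]
      simp only [zero_smul, add_zero]
      rw [← hy]
    · intro t
      refine (continuous_id.pow q).mul (continuous_vecCons (hcF.comp ?_) ?_ _) <;> fun_prop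
    · refine (continuous_snd.pow q).mul ((continuous_vecCons
        (Continuous.clm_apply (hcF'.comp ?_) ?_) ?_ _).add (continuous_app (hcF.comp ?_) _)) <;>
        fun_prop
  simp only [e1, e2]
  -- one integral
  have hx : Continuous (fun s : ℝ => a0 + s • y) := by fun_prop
  have c1 : ∀ i : Fin (q + 1), Continuous (fun s : ℝ => s ^ q * (fderiv ℝ F (a0 + s • y) (s • b i)
        (Matrix.vecCons y (fun j => b (i.succAbove j))) +
        F (a0 + s • y) (Matrix.vecCons (b i) (fun j => b (i.succAbove j))))) := by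
    intro i
    refine (continuous_id.pow q).mul ((continuous_app (Continuous.clm_apply (hcF'.comp hx) ?_) _).add
      (continuous_app (hcF.comp hx) _))
    fun_prop
  have c2 : Continuous (fun s : ℝ => s ^ (q + 1) * ∑ i : Fin (q + 2), (-1 : ℝ) ^ (i : ℕ) *
      fderiv ℝ F (a0 + s • y) (Matrix.vecCons y b i)
        (fun j => Matrix.vecCons y b (i.succAbove j))) := by
    refine (continuous_id.pow (q + 1)).mul (continuous_finsetSum _ fun i _ => ?_)
    exact continuous_const.mul
      (continuous_app (Continuous.clm_apply (hcF'.comp hx) continuous_const) _)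
  have e3 : (∑ i : Fin (q + 1), (-1 : ℝ) ^ (i : ℕ) * ∫ s in (0 : ℝ)..1,
      s ^ q * (fderiv ℝ F (a0 + s • y) (s • b i)
        (Matrix.vecCons y (fun j => b (i.succAbove j))) +
        F (a0 + s • y) (Matrix.vecCons (b i) (fun j => b (i.succAbove j))))) =
      ∫ s in (0 : ℝ)..1, ∑ i : Fin (q + 1), (-1 : ℝ) ^ (i : ℕ) *
        (s ^ q * (fderiv ℝ F (a0 + s • y) (s • b i)
        (Matrix.vecCons y (fun j => b (i.succAbove j))) +
        F (a0 + s • y) (Matrix.vecCons (b i) (fun j => b (i.succAbove j))))) := by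
    rw [intervalIntegral.integral_finsetSum]
    · refine Finset.sum_congr rfl fun i _ => ?_
      rw [intervalIntegral.integral_const_mul]
    · intro i _
      exact (continuous_const.mul (c1 i)).intervalIntegrable _ _
  rw [e3, ← intervalIntegral.integral_add]
  · -- the fundamental theorem of calculus
    have key : ∀ s : ℝ, (∑ i : Fin (q + 1), (-1 : ℝ) ^ (i : ℕ) *
        (s ^ q * (fderiv ℝ F (a0 + s • y) (s • b i)
        (Matrix.vecCons y (fun j => b (i.succAbove j))) +
        F (a0 + s • y) (Matrix.vecCons (b i) (fun j => b (i.succAbove j)))))) +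
        s ^ (q + 1) * ∑ i : Fin (q + 2), (-1 : ℝ) ^ (i : ℕ) *
          fderiv ℝ F (a0 + s • y) (Matrix.vecCons y b i)
            (fun j => Matrix.vecCons y b (i.succAbove j)) =
        ((q + 1 : ℕ) : ℝ) * s ^ q * F (a0 + s • y) b +
          s ^ (q + 1) * fderiv ℝ F (a0 + s • y) y b := by
      intro s
      have k1 : (∑ i : Fin (q + 1), (-1 : ℝ) ^ (i : ℕ) *
          F (a0 + s • y) (Matrix.vecCons (b i) (fun j => b (i.succAbove j)))) =
          ((q + 1 : ℕ) : ℝ) * F (a0 + s • y) b := by
        have := congrArg (fun f => f b)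
          (ContinuousAlternatingMap.alternatizeUncurryFin_curryLeft (F (a0 + s • y)))
        simp only [ContinuousAlternatingMap.alternatizeUncurryFin_apply,
          ContinuousAlternatingMap.curryLeft_apply_apply] at this
        rw [ContinuousAlternatingMap.smul_apply] at this
        rw [nsmul_eq_mul] at this
        rw [← this]
        refine Finset.sum_congr rfl fun i _ => ?_
        rw [zsmul_eq_mul]
        push_cast
        rfl
      have k2 : (∑ i : Fin (q + 2), (-1 : ℝ) ^ (i : ℕ) *
          fderiv ℝ F (a0 + s • y) (Matrix.vecCons y b i)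
            (fun j => Matrix.vecCons y b (i.succAbove j))) =
          fderiv ℝ F (a0 + s • y) y b - ∑ i : Fin (q + 1), (-1 : ℝ) ^ (i : ℕ) *
            fderiv ℝ F (a0 + s • y) (b i) (Matrix.vecCons y (fun j => b (i.succAbove j))) := by
        rw [Fin.sum_univ_succ]
        have m1 : (fun j => (Matrix.vecCons y b : Fin (q + 2) → E) ((0 : Fin (q + 2)).succAbove j)) =
            b := by
          funext j
          simp
        have m2 : ∀ i : Fin (q + 1),
            (fun j => (Matrix.vecCons y b : Fin (q + 2) → E) (i.succ.succAbove j)) =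
            Matrix.vecCons y (fun j => b (i.succAbove j)) := by
          intro i
          funext j
          refine Fin.cases ?_ (fun k => ?_) j
          · simp
          · simp
        rw [m1]
        simp only [m2, Matrix.cons_val_zero, Matrix.cons_val_succ, Fin.val_zero, pow_zero, one_mul,
          Fin.val_succ, pow_succ]
        rw [sub_eq_add_neg, ← Finset.sum_neg_distrib]
        congr 1
        refine Finset.sum_congr rfl fun i _ => ?_
        ring
      have k3 : (∑ i : Fin (q + 1), (-1 : ℝ) ^ (i : ℕ) *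
          (s ^ q * (fderiv ℝ F (a0 + s • y) (s • b i)
          (Matrix.vecCons y (fun j => b (i.succAbove j))) +
          F (a0 + s • y) (Matrix.vecCons (b i) (fun j => b (i.succAbove j)))))) =
          s ^ (q + 1) * (∑ i : Fin (q + 1), (-1 : ℝ) ^ (i : ℕ) *
            fderiv ℝ F (a0 + s • y) (b i) (Matrix.vecCons y (fun j => b (i.succAbove j)))) +
          s ^ q * ∑ i : Fin (q + 1), (-1 : ℝ) ^ (i : ℕ) *
          F (a0 + s • y) (Matrix.vecCons (b i) (fun j => b (i.succAbove j))) := by
        rw [Finset.mul_sum, Finset.mul_sum, ← Finset.sum_add_distrib]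
        refine Finset.sum_congr rfl fun i _ => ?_
        rw [map_smul, ContinuousAlternatingMap.smul_apply, smul_eq_mul]
        ring
      rw [k3, k1, k2]
      ring
    rw [intervalIntegral.integral_congr (fun s _ => key s)]
    have hder : ∀ s ∈ Set.uIcc (0 : ℝ) 1, HasDerivAt (fun s : ℝ => s ^ (q + 1) * F (a0 + s • y) b)
        (((q + 1 : ℕ) : ℝ) * s ^ q * F (a0 + s • y) b +
          s ^ (q + 1) * fderiv ℝ F (a0 + s • y) y b) s := by
      intro s _
      have h1 := hasDerivAt_pow (q + 1) s
      have h2 := hasDerivAt_line hd a0 y b s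
      have h3 : HasDerivAt (fun s : ℝ => s ^ (q + 1) * F (a0 + s • y) b) _ s := h1.mul h2
      simpa using h3
    rw [intervalIntegral.integral_eq_sub_of_hasDerivAt hder]
    · simp [hy]
    · apply Continuous.intervalIntegrable
      exact ((continuous_const.mul (continuous_id.pow q)).mul (continuous_app (hcF.comp hx) _)).add
        ((continuous_id.pow (q + 1)).mul
          (continuous_app (Continuous.clm_apply (hcF'.comp hx) continuous_const) _))
  · apply Continuous.intervalIntegrable
    exact continuous_finsetSum _ fun i _ => continuous_const.mul (c1 i)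
  · exact c2.intervalIntegrable _ _

end core

end Hop2

section Raw
variable {Φ Φ' : Type} {p q : ℕ}

theorem hop_id {u : Finset Φ} {θ : Raw Φ p (q + 1)} (h : IsSF u θ) (x0 : Φ → ℝ) :
    dd (hop x0 θ) + hop x0 (dd θ) = θ := by
  obtain ⟨α, hα, hθ⟩ := h
  funext x w v
  -- the form with fixed `v`
  set F : (u → ℝ) → (u → ℝ) [⋀^Fin (q + 1)]→L[ℝ] ℝ := fun e =>
    (ContinuousAlternatingMap.apply ℝ (u → ℝ) ℝ (fun j => rs u (v j))).compContinuousAlternatingMap
      (α e) with hF
  have hFs : ContDiff ℝ ∞ F := by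
    have h1 := Hop2.contDiff_ev (E := u → ℝ) (n := q + 1) (fun j => rs u (v j))
    exact h1.comp hα
  have hFa : ∀ (x : Φ → ℝ) (w : Fin (q + 1) → Φ → ℝ), θ x w v = F (rs u x) (fun i => rs u (w i)) :=
    fun x w => hθ x w v
  have hcons : ∀ {n : ℕ} (y : Φ → ℝ) (w : Fin n → Φ → ℝ),
      (fun i => rs u ((Fin.cons y w : Fin (n + 1) → Φ → ℝ) i)) =
        Matrix.vecCons (rs u y) (fun i => rs u (w i)) := by
    intro n y w
    funext i
    refine Fin.cases rfl (fun _ => rfl) i
  have key := Hop2.core hFs (rs u x0) (rs u x) (fun i => rs u (w i))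
  rw [hFa x w, ← key]
  show dd (hop x0 θ) x w v + hop x0 (dd θ) x w v = _
  congr 1
  · unfold dd
    refine Finset.sum_congr rfl fun i _ => ?_
    refine congrArg (fun f : ℝ → ℝ => (-1 : ℝ) ^ (i : ℕ) * deriv f 0) (funext fun t => ?_)
    unfold hop
    refine intervalIntegral.integral_congr fun s _ => ?_
    show s ^ q * θ _ _ v = _
    rw [hFa, hcons]
    rfl
  · unfold hop
    refine intervalIntegral.integral_congr fun s _ => ?_
    show s ^ (q + 1) * dd θ _ _ v = _
    unfold dd
    refine congrArg (fun r : ℝ => s ^ (q + 1) * r) (Finset.sum_congr rfl fun i _ => ?_)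
    refine congrArg (fun f : ℝ → ℝ => (-1 : ℝ) ^ (i : ℕ) * deriv f 0) (funext fun t => ?_)
    rw [hFa]
    have e1 := hcons (x - x0) w
    have e2 : ∀ i, rs u ((Fin.cons (x - x0) w : Fin (q + 2) → Φ → ℝ) i) =
      Matrix.vecCons (rs u x - rs u x0) (fun i => rs u (w i)) i := fun i => congrFun e1 i
    show F (rs u x0 + s • (rs u x - rs u x0) +
      t • rs u ((Fin.cons (x - x0) w : Fin (q + 2) → Φ → ℝ) i))
      (fun j => rs u ((Fin.cons (x - x0) w : Fin (q + 2) → Φ → ℝ) (i.succAbove j))) = _
    simp only [e2]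

end Raw

end Pool.Agent.TD
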