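import Pool.Agent.TD.A.Hop1

/-! Block A: homotopy operator, degree 0 and vanishing. -/

open scoped ContDiff Topology

namespace Pool.Agent.TD

section Raw
variable {Φ Φ' : Type} {p q : ℕ}

/-- The function of `s` in the fundamental theorem of calculus. -/
theorem hop_zero_cd {u : Finset Φ} {θ : Raw Φ p 0} (h : IsSF u θ) (x0 y : Φ → ℝ)
    (w : Fin 0 → Φ → ℝ) (v : Fin p → Φ → ℝ) :
    ContDiff ℝ ∞ (fun s : ℝ => θ (x0 + s • y) w v) := by
  obtain ⟨α, hα, hθ⟩ := h
  have e : (fun s : ℝ => θ (x0 + s • y) w v) = fun s : ℝ =>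
      α (rs u x0 + s • rs u y) (fun i => rs u (w i)) (fun j => rs u (v j)) := by
    funext s
    rw [hθ, rs_add, rs_smul]
  rw [e]
  have h1 : ContDiff ℝ ∞ (fun s : ℝ => α (rs u x0 + s • rs u y)) :=
    hα.comp (contDiff_const.add (contDiff_id.smul contDiff_const))
  have h2 : ContDiff ℝ ∞ (fun s : ℝ => α (rs u x0 + s • rs u y) (fun i => rs u (w i))) := by
    let L : ((u → ℝ) [⋀^Fin 0]→L[ℝ] ((u → ℝ) [⋀^Fin p]→L[ℝ] ℝ)) →L[ℝ]
        ((u → ℝ) [⋀^Fin p]→L[ℝ] ℝ) :=
      ContinuousAlternatingMap.apply ℝ (u → ℝ) ((u → ℝ) [⋀^Fin p]→L[ℝ] ℝ) (fun i => rs u (w i))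
    exact (L.contDiff (n := ∞)).comp h1
  have k := (ContinuousAlternatingMap.apply ℝ (u → ℝ) ℝ (fun j => rs u (v j))).contDiff (n := ∞)
  exact k.comp h2

theorem hop_zero {u : Finset Φ} {θ : Raw Φ p 0} (h : IsSF u θ) (x0 : Φ → ℝ) :
    frz x0 θ + hop x0 (dd θ) = θ := by
  funext x w v
  have hg := hop_zero_cd h x0 (x - x0) w v
  have e1 : hop x0 (dd θ) x w v = ∫ s in (0 : ℝ)..1, deriv (fun s : ℝ => θ (x0 + s • (x - x0)) w v) s := by
    unfold hop
    refine intervalIntegral.integral_congr fun s _ => ?_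
    show s ^ 0 * dd θ (x0 + s • (x - x0)) (Fin.cons (x - x0) w) v = _
    unfold dd
    rw [pow_zero, one_mul, Fin.sum_univ_one]
    simp only [Fin.val_zero, pow_zero, one_mul, Fin.cons_zero]
    have e2 : (fun t : ℝ => θ (x0 + s • (x - x0) + t • (x - x0))
        (fun j => (Fin.cons (x - x0) w : Fin 1 → Φ → ℝ) ((0 : Fin 1).succAbove j)) v)
        = fun t : ℝ => (fun s : ℝ => θ (x0 + s • (x - x0)) w v) (s + t) := by
      funext t
      have a1 : x0 + s • (x - x0) + t • (x - x0) = x0 + (s + t) • (x - x0) := by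
        rw [add_smul, add_assoc]
      have a2 : (fun j => (Fin.cons (x - x0) w : Fin 1 → Φ → ℝ) ((0 : Fin 1).succAbove j)) = w := by
        funext j
        exact j.elim0
      rw [a1, a2]
    rw [e2, deriv_comp_const_add (f := fun s : ℝ => θ (x0 + s • (x - x0)) w v), add_zero]
  show θ x0 w v + hop x0 (dd θ) x w v = θ x w v
  rw [e1, intervalIntegral.integral_deriv_eq_sub]
  · simp
  · intro s _
    exact (hg.differentiable (by simp)).differentiableAt
  · exact ((hg.continuous_deriv (by simp)).intervalIntegrable 0 1)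

theorem hop_van {u : Finset Φ} {θ : Raw Φ p (q + 1)} (x0 : Φ → ℝ) {P : Set (u → ℝ)}
    (hP : StarConvex ℝ (rs u x0) P) (h : VanOn u θ P) : VanOn u (hop x0 θ) P := by
  intro σ hσ hσP x w v hx hw hv
  set C : Set (u → ℝ) := convexHull ℝ (insert (rs u x0) σ) with hC
  have hCc : Convex ℝ C := convex_convexHull ℝ _
  have hne : σ.Nonempty := ⟨_, hx⟩
  have hCP : C ⊆ P := by
    rw [hC, convexHull_insert hne, hσ.convexHull_eq]
    intro z hz
    rw [mem_convexJoin] at hz
    obtain ⟨a, ha, b, hb, hz⟩ := hz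
    rw [Set.mem_singleton_iff] at ha
    subst ha
    exact starConvex_iff_segment_subset.1 hP (hσP hb) hz
  have h0 : rs u x0 ∈ C := subset_convexHull ℝ _ (Set.mem_insert _ _)
  have hσC : σ ⊆ C := (Set.subset_insert _ _).trans (subset_convexHull ℝ _)
  have hsp : vectorSpan ℝ σ ≤ vectorSpan ℝ C := vectorSpan_mono ℝ hσC
  have hxx : rs u (x - x0) ∈ vectorSpan ℝ C := vsub_mem_vectorSpan ℝ (hσC hx) h0
  have hz : hop x0 θ x w v = ∫ _s in (0 : ℝ)..1, (0 : ℝ) := by
    unfold hop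
    refine intervalIntegral.integral_congr fun s hs => ?_
    rw [Set.uIcc_of_le zero_le_one] at hs
    show s ^ q * θ (x0 + s • (x - x0)) (Fin.cons (x - x0) w) v = 0
    rw [h C hCc hCP (x0 + s • (x - x0)) (Fin.cons (x - x0) w) v ?_ ?_ ?_, mul_zero]
    · have e : rs u (x0 + s • (x - x0)) = (1 - s) • rs u x0 + s • rs u x := by
        have : x0 + s • (x - x0) = (1 - s) • x0 + s • x := by
          rw [smul_sub, sub_smul, one_smul]
          abel
        rw [this, rs_add, rs_smul, rs_smul]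
      rw [e]
      exact hCc h0 (hσC hx) (by linarith [hs.2]) hs.1 (by ring)
    · intro i
      refine Fin.cases ?_ (fun i => ?_) i
      · rw [Fin.cons_zero]
        exact hxx
      · rw [Fin.cons_succ]
        exact hsp (hw i)
    · intro j
      exact hsp (hv j)
  rw [hz]
  simp

end Raw

end Pool.Agent.TD
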