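import Pool.Agent.TD.A2

/-! Block A: smooth functions. -/

open scoped ContDiff Topology

namespace Pool.Agent.TD

namespace LogSpace

variable {X Φ : Type} [TopologicalSpace X] (L : LogSpace X Φ) {p q : ℕ} {z : X}

lemma smo1_continuousAt_trop (s : Finset Φ) {z : X} (h : ∀ f ∈ s, z ∈ L.dom f) :
    ContinuousAt (L.trop s) z := by
  rw [continuousAt_pi]
  intro f
  exact (L.cont f.1).continuousAt ((L.isOpen_dom f.1).mem_nhds (h f.1 f.2))

variable {L} in
theorem Smooth.continuous {g : X → ℝ} (hg : L.Smooth g) : Continuous g := by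
  rw [continuous_iff_continuousAt]
  intro z
  obtain ⟨s, hs, a, ha, he⟩ := hg z
  have h1 : ContinuousAt (fun z' => a (L.trop s z')) z :=
    ContinuousAt.comp ha.continuous.continuousAt (L.smo1_continuousAt_trop s hs)
  exact h1.congr (he.mono fun z' h => h.symm)

theorem smooth_const (c : ℝ) : L.Smooth (fun _ => c) := by
  intro z
  exact ⟨∅, by simp, fun _ => c, contDiff_const, Filter.Eventually.of_forall fun _ => rfl⟩

variable {L} in
/-- Smooth functions of smooth functions are smooth. -/
theorem Smooth.comp {n : ℕ} {g : Fin n → X → ℝ} (hg : ∀ i, L.Smooth (g i)) {F : (Fin n → ℝ) → ℝ}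
    (hF : ContDiff ℝ ∞ F) : L.Smooth (fun z => F (fun i => g i z)) := by
  classical
  intro z
  choose s hs a ha he using fun i => hg i z
  have hsub : ∀ i, s i ⊆ Finset.univ.biUnion s := fun i =>
    Finset.subset_biUnion_of_mem s (Finset.mem_univ i)
  refine ⟨Finset.univ.biUnion s, ?_, fun y => F (fun i => a i (rst (hsub i) y)), ?_, ?_⟩
  · intro f hf
    obtain ⟨i, -, hi⟩ := Finset.mem_biUnion.1 hf
    exact hs i f hi
  · refine hF.comp (contDiff_pi.2 fun i => ?_)
    exact (ha i).comp (rst (hsub i)).contDiff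
  · filter_upwards [Filter.eventually_all.2 he] with z' hz'
    show F (fun i => g i z') = F (fun i => a i (rst (hsub i) (L.trop _ z')))
    congr 1
    funext i
    rw [hz' i, L.rst_trop]

/-- A function which is locally smooth is smooth. -/
theorem smooth_of_local {g : X → ℝ} (h : ∀ z, ∃ g', L.Smooth g' ∧ ∀ᶠ z' in 𝓝 z, g z' = g' z') :
    L.Smooth g := by
  intro z
  obtain ⟨g', hg', he⟩ := h z
  obtain ⟨s, hs, a, ha, he'⟩ := hg' z
  refine ⟨s, hs, a, ha, ?_⟩
  filter_upwards [he, he'] with z' h1 h2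
  rw [h1, h2]

end LogSpace

end Pool.Agent.TD
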