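import Pool.Agent.TD.A.St2
import Pool.Agent.TD.A.Smo1

/-! Block A: pull back of germs. -/

open scoped ContDiff Topology

namespace Pool.Agent.TD

namespace Mor

variable {X Φ X' Φ' : Type} [TopologicalSpace X] [TopologicalSpace X'] {L : LogSpace X Φ}
  {L' : LogSpace X' Φ'} (m : Mor L L') {p q : ℕ} {z : X}

/-- Composition of morphisms: `m.comp m'` is first `m`, then `m'`. -/
def comp {X'' Φ'' : Type} [TopologicalSpace X''] {L'' : LogSpace X'' Φ''} (m : Mor L L')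
    (m' : Mor L' L'') : Mor L L'' where
  toFun := m'.toFun ∘ m.toFun
  cont := m'.cont.comp m.cont
  ix := m.ix ∘ m'.ix
  dom_sub _ _ h := m.dom_sub _ _ (m'.dom_sub _ _ h)
  lf_eq _ _ h := (m.lf_eq _ _ (m'.dom_sub _ _ h)).trans (m'.lf_eq _ _ h)

theorem pullS_comp {X'' Φ'' : Type} [TopologicalSpace X''] {L'' : LogSpace X'' Φ''}
    (m' : Mor L' L'') (c : L''.Stalk p q (m'.toFun (m.toFun z))) :
    (m.comp m').pullS p q z c = m.pullS p q z (m'.pullS p q (m.toFun z) c) := by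
  obtain ⟨θ, h, rfl⟩ := L''.exists_germ c
  exact (m.comp m').pullS_germ (z := z) h

theorem pullS_ddS (c : L'.Stalk p q (m.toFun z)) :
    m.pullS p (q + 1) z (L'.ddS p q _ c) = L.ddS p q z (m.pullS p q z c) := by
  obtain ⟨θ, h, rfl⟩ := L'.exists_germ c
  rw [LogSpace.ddS_germ, pullS_germ, pullS_germ, LogSpace.ddS_germ]
  obtain ⟨s, hs, -⟩ := id h
  exact L.germ_congr (dd_pullR m.ix hs).symm _ _

theorem pullG_ddG (c : L'.G p q) :
    m.pullG p (q + 1) (L'.ddG p q c) = L.ddG p q (m.pullG p q c) := by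
  apply Subtype.ext; funext z; exact m.pullS_ddS _

theorem pullS_wdS (a : L'.Stalk 1 0 (m.toFun z)) (c : L'.Stalk p q (m.toFun z)) :
    m.pullS (p + 1) q z (L'.wdS p q _ a c) = L.wdS p q z (m.pullS 1 0 z a) (m.pullS p q z c) := by
  obtain ⟨η, k, rfl⟩ := L'.exists_germ a
  obtain ⟨θ, h, rfl⟩ := L'.exists_germ c
  rw [LogSpace.wdS_germ, pullS_germ, pullS_germ, pullS_germ, LogSpace.wdS_germ]
  exact L.germ_congr (pullR_wdg1 _ _ _) _ _

theorem pullS_muS (a : L'.Stalk 0 0 (m.toFun z)) (c : L'.Stalk p q (m.toFun z)) :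
    m.pullS p q z (L'.muS p q _ a c) = L.muS p q z (m.pullS 0 0 z a) (m.pullS p q z c) := by
  obtain ⟨η, k, rfl⟩ := L'.exists_germ a
  obtain ⟨θ, h, rfl⟩ := L'.exists_germ c
  rw [LogSpace.muS_germ, pullS_germ, pullS_germ, pullS_germ, LogSpace.muS_germ]
  exact L.germ_congr (pullR_mul0 _ _ _) _ _

theorem pullS_dlS (f : Φ') (h : m.toFun z ∈ L'.dom f) :
    m.pullS 1 0 z (L'.dlS f h) = L.dlS (m.ix f) (m.dom_sub _ _ h) := rfl

theorem pullS_oneS : m.pullS 0 0 z (L'.oneS _) = L.oneS z := rfl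

theorem pullS_symS (ℓ : Fin p → L'.Stalk 1 0 (m.toFun z)) :
    m.pullS p 0 z (L'.symS p ℓ) = L.symS p (fun i => m.pullS 1 0 z (ℓ i)) := by
  induction p with
  | zero => exact m.pullS_oneS
  | succ p ih =>
    show m.pullS (p + 1) 0 z (L'.wdS p 0 _ (ℓ 0) (L'.symS p (fun i => ℓ i.succ)))
      = L.wdS p 0 z (m.pullS 1 0 z (ℓ 0)) (L.symS p (fun i => m.pullS 1 0 z (ℓ i.succ)))
    rw [pullS_wdS, ih]

theorem pullS_Lp {c : L'.Stalk p 0 (m.toFun z)} (hc : c ∈ L'.Lp p (m.toFun z)) :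
    m.pullS p 0 z c ∈ L.Lp p z := by
  unfold LogSpace.Lp at hc
  induction hc using Submodule.span_induction with
  | mem x hx =>
    obtain ⟨f, h, rfl⟩ := hx
    rw [pullS_symS]
    exact Submodule.subset_span ⟨fun i => m.ix (f i), fun i => m.dom_sub _ _ (h i), rfl⟩
  | zero => rw [map_zero]; exact Submodule.zero_mem _
  | add x y _ _ hx hy => rw [map_add]; exact Submodule.add_mem _ hx hy
  | smul r x _ hx => rw [map_smul]; exact Submodule.smul_mem _ r hx

theorem smooth_comp {g : X' → ℝ} (hg : L'.Smooth g) : L.Smooth (g ∘ m.toFun) := by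
  classical
  intro z
  obtain ⟨s, hs, a, ha, he⟩ := hg (m.toFun z)
  have hr : ContDiff ℝ ∞ (fun (y : ↥(s.image m.ix) → ℝ) (f : s) =>
      y ⟨m.ix f.1, Finset.mem_image_of_mem _ f.2⟩) := by
    rw [contDiff_pi]
    intro f
    exact contDiff_apply ℝ ℝ _
  refine ⟨s.image m.ix, ?_, fun y => a (fun f => y ⟨m.ix f.1, Finset.mem_image_of_mem _ f.2⟩),
    ha.comp hr, ?_⟩
  · intro f hf
    obtain ⟨f', hf', rfl⟩ := Finset.mem_image.1 hf
    exact m.dom_sub _ _ (hs f' hf')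
  · have h1 : ∀ᶠ z' in 𝓝 z, ∀ f ∈ s, m.toFun z' ∈ L'.dom f := by
      rw [Filter.eventually_all_finset]
      exact fun f hf => m.cont.continuousAt.eventually ((L'.isOpen_dom f).mem_nhds (hs f hf))
    filter_upwards [h1, m.cont.continuousAt.eventually he] with z' h2 h3
    rw [Function.comp_apply, h3]
    congr 1
    funext f
    exact (m.lf_eq _ _ (h2 f.1 f.2)).symm

end Mor

end Pool.Agent.TD
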