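import Pool.Agent.TD.A.Mor1

/-! Block A: surjectivity of the pull back. -/

open scoped ContDiff Topology

namespace Pool.Agent.TD

/-- Affine pull back preserves `IsSF`. -/
lemma isSF_affine {Φ' : Type} {p q : ℕ} {V : Type} [NormedAddCommGroup V] [NormedSpace ℝ V]
    (s' : Finset Φ') (T : (s' → ℝ) →L[ℝ] V) (b : V) {α : SForm V p q} (hα : ContDiff ℝ ∞ α) :
    IsSF s' (fun x w v => α (T (rs s' x) + b) (fun i => T (rs s' (w i)))
      (fun j => T (rs s' (v j))) : Raw Φ' p q) := by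
  refine ⟨spull T (fun y => α (y + b)), ?_, fun x w v => rfl⟩
  exact spull_contDiff T (hα.comp (contDiff_id.add contDiff_const))

/-- A linear functional which is constant on `σ` vanishes on the vector span. -/
lemma linear_vectorSpan_eq_zero {V : Type} [AddCommGroup V] [Module ℝ V] {σ : Set V}
    (l : V →ₗ[ℝ] ℝ) (c : ℝ) (h : ∀ y ∈ σ, l y = c) {w : V} (hw : w ∈ vectorSpan ℝ σ) :
    l w = 0 := by
  have hle : vectorSpan ℝ σ ≤ LinearMap.ker l := by
    rw [vectorSpan_def, Submodule.span_le]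
    rintro _ ⟨y, hy, y', hy', rfl⟩
    show l (y -ᵥ y') = 0
    rw [vsub_eq_sub, map_sub, h y hy, h y' hy', sub_self]
  exact hle hw

namespace Mor

variable {X Φ X' Φ' : Type} [TopologicalSpace X] [TopologicalSpace X'] {L : LogSpace X Φ}
  {L' : LogSpace X' Φ'} (m : Mor L L') {p q : ℕ} {z : X}

/-- Every log function at `z` is near `z` an affine combination of pulled back log functions. -/
def AffAt (z : X) : Prop := ∀ f, z ∈ L.dom f → ∃ (n : ℕ) (g : Fin n → Φ') (a : Fin n → ℝ) (b : ℝ),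
  (∀ i, m.toFun z ∈ L'.dom (g i)) ∧
    ∀ᶠ z' in 𝓝 z, L.lf f z' = b + ∑ i, a i * L.lf (m.ix (g i)) z'

theorem pullS_surjective (h : m.AffAt z) : Function.Surjective (m.pullS p q z) := by
  classical
  intro c
  obtain ⟨θ, hθ, rfl⟩ := L.exists_germ c
  obtain ⟨s, ⟨α, hα, hαθ⟩, hs⟩ := id hθ
  have hsf : ∀ f : s, ∃ (n : ℕ) (g : Fin n → Φ') (a : Fin n → ℝ) (b : ℝ),
      (∀ i, m.toFun z ∈ L'.dom (g i)) ∧
      ∀ᶠ z' in 𝓝 z, L.lf f.1 z' = b + ∑ i, a i * L.lf (m.ix (g i)) z' :=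
    fun f => h f.1 (hs f.1 f.2)
  choose n g a b hg hrel using hsf
  set s' : Finset Φ' := Finset.univ.biUnion (fun f : s => Finset.univ.image (g f)) with hs'
  have hmem : ∀ (f : s) (i : Fin (n f)), g f i ∈ s' := by
    intro f i
    rw [hs']
    exact Finset.mem_biUnion.2 ⟨f, Finset.mem_univ _, Finset.mem_image.2 ⟨i, Finset.mem_univ _, rfl⟩⟩
  have hdom' : ∀ f' ∈ s', m.toFun z ∈ L'.dom f' := by
    intro f' hf'
    rw [hs'] at hf'
    obtain ⟨f, -, hf⟩ := Finset.mem_biUnion.1 hf'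
    obtain ⟨i, -, rfl⟩ := Finset.mem_image.1 hf
    exact hg f i
  let T : (s' → ℝ) →L[ℝ] (s → ℝ) := ContinuousLinearMap.pi fun f =>
    ∑ i, a f i • ContinuousLinearMap.proj (R := ℝ) (φ := fun _ : s' => ℝ) ⟨g f i, hmem f i⟩
  have hT : ∀ (y : s' → ℝ) (f : s), T y f = ∑ i, a f i * y ⟨g f i, hmem f i⟩ := by
    intro y f
    simp [T]
  let θ' : Raw Φ' p q := fun x w v => α (T (rs s' x) + b) (fun i => T (rs s' (w i)))
      (fun j => T (rs s' (v j)))
  have hθ'sf : IsSF s' θ' := isSF_affine s' T b hα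
  have hθ' : L'.SFat (m.toFun z) θ' := ⟨s', hθ'sf, hdom'⟩
  refine ⟨L'.germ θ' hθ', ?_⟩
  rw [pullS_germ, L.germ_eq_iff]
  -- the common refinement
  have h1 : s'.image m.ix ⊆ s ∪ s'.image m.ix := Finset.subset_union_right
  have h2 : s ⊆ s ∪ s'.image m.ix := Finset.subset_union_left
  have e1 : IsSF (s ∪ s'.image m.ix) (pullR m.ix θ') := (hθ'sf.pullR).mono h1
  have e2 : IsSF (s ∪ s'.image m.ix) θ := IsSF.mono h2 ⟨α, hα, hαθ⟩
  have hdomu : ∀ f ∈ s ∪ s'.image m.ix, z ∈ L.dom f := by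
    intro f hf
    rcases Finset.mem_union.1 hf with hf | hf
    · exact hs f hf
    · obtain ⟨f', hf', rfl⟩ := Finset.mem_image.1 hf
      exact m.dom_sub _ _ (hdom' f' hf')
  have hV1 : ∀ᶠ z' in 𝓝 z, ∀ f ∈ s ∪ s'.image m.ix, z' ∈ L.dom f := by
    rw [Filter.eventually_all_finset]
    exact fun f hf => (L.isOpen_dom f).mem_nhds (hdomu f hf)
  have hV2 : ∀ᶠ z' in 𝓝 z, ∀ f : s, L.lf f.1 z' = b f + ∑ i, a f i * L.lf (m.ix (g f i)) z' := by
    rw [Filter.eventually_all]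
    exact hrel
  refine ⟨s ∪ s'.image m.ix, ?_, {z' | (∀ f ∈ s ∪ s'.image m.ix, z' ∈ L.dom f) ∧
    ∀ f : s, L.lf f.1 z' = b f + ∑ i, a f i * L.lf (m.ix (g f i)) z'}, hV1.and hV2,
    fun f hf z' hz' => hz'.1 f hf, ?_⟩
  · have := e1.add (e2.smul (-1))
    have e : pullR m.ix θ' - θ = pullR m.ix θ' + (-1 : ℝ) • θ := by
      rw [neg_smul, one_smul, sub_eq_add_neg]
    rw [e]; exact this
  · intro σ hσ hσP x w v hx hw hv
    have hmu : ∀ (f : s) (i : Fin (n f)), m.ix (g f i) ∈ s ∪ s'.image m.ix := fun f i =>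
      h1 (Finset.mem_image_of_mem _ (hmem f i))
    have hfu : ∀ f : s, f.1 ∈ s ∪ s'.image m.ix := fun f => h2 f.2
    -- the functional of the relation
    let l : s → ((s ∪ s'.image m.ix : Finset Φ) → ℝ) →ₗ[ℝ] ℝ := fun f =>
      LinearMap.proj (R := ℝ) (φ := fun _ : (s ∪ s'.image m.ix : Finset Φ) => ℝ) ⟨f.1, hfu f⟩ -
        ∑ i, a f i • LinearMap.proj (R := ℝ) (φ := fun _ : (s ∪ s'.image m.ix : Finset Φ) => ℝ)
          ⟨m.ix (g f i), hmu f i⟩
    have hl : ∀ (f : s) (y : Φ → ℝ), l f (rs (s ∪ s'.image m.ix) y) =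
        y f.1 - ∑ i, a f i * y (m.ix (g f i)) := by
      intro f y
      simp [l, rs]
    have hlσ : ∀ (f : s), ∀ y ∈ σ, l f y = b f := by
      intro f y hy
      obtain ⟨z', hz', rfl⟩ := hσP hy
      have h3 := hz'.2 f
      have h4 : l f (L.trop (s ∪ s'.image m.ix) z') =
          L.lf f.1 z' - ∑ i, a f i * L.lf (m.ix (g f i)) z' := by
        have := hl f (fun f => L.lf f z')
        exact this
      rw [h4, h3]; ring
    have kx : T (rs s' (x ∘ m.ix)) + b = rs s x := by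
      funext f
      have := hlσ f _ hx
      rw [hl] at this
      show T (rs s' (x ∘ m.ix)) f + b f = x f.1
      rw [hT]
      show ∑ i, a f i * x (m.ix (g f i)) + b f = x f.1
      linarith
    have kw : ∀ y : Φ → ℝ, rs (s ∪ s'.image m.ix) y ∈ vectorSpan ℝ σ →
        T (rs s' (y ∘ m.ix)) = rs s y := by
      intro y hy
      funext f
      have := linear_vectorSpan_eq_zero (l f) (b f) (hlσ f) hy
      rw [hl] at this
      show T (rs s' (y ∘ m.ix)) f = y f.1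
      rw [hT]
      show ∑ i, a f i * y (m.ix (g f i)) = y f.1
      linarith
    show α (T (rs s' (x ∘ m.ix)) + b) (fun i => T (rs s' (w i ∘ m.ix)))
      (fun j => T (rs s' (v j ∘ m.ix))) - θ x w v = 0
    rw [hαθ, kx, funext fun i => kw (w i) (hw i), funext fun j => kw (v j) (hv j), sub_self]

end Mor

end Pool.Agent.TD
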