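import Pool.Agent.TD.A.St1
import Pool.Agent.TD.A.Hop2
import Pool.Agent.TD.A.Hop3

/-! Block A: the Poincaré lemma. -/

open scoped ContDiff Topology

namespace Pool.Agent.TD

namespace LogSpace

variable {X Φ : Type} [TopologicalSpace X] (L : LogSpace X Φ) {p q : ℕ} {z : X}

/-- If `dd θ` vanishes at `z`, so does its image under the homotopy operator centred at `z`. -/
theorem van_hop (hs : L.StarAt z) {θ : Raw Φ p q} (h : L.SFat z θ) (hd : L.Van z (TD.dd θ)) :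
    ∃ u : Finset Φ, IsSF u θ ∧ (∀ f ∈ u, z ∈ L.dom f) ∧
      L.Van z (hop (fun f => L.lf f z) (TD.dd θ)) := by
  obtain ⟨u, hu, hu', V, hV, hVd, hv⟩ := Van.common L hd h
  have hz : ∀ f ∈ u, z ∈ L.dom f := fun f hf => hVd f hf (mem_of_mem_nhds hV)
  obtain ⟨V', hV', hsub, hdom, hstar⟩ := hs u hz V hV
  refine ⟨u, hu', hz, u, hop_sf hu _, V', hV', hdom, ?_⟩
  exact hop_van (fun f => L.lf f z) hstar (hv.mono (Set.image_mono hsub))

/-- The Poincaré lemma. -/
theorem poincare (hs : L.StarAt z) (c : L.Stalk p (q + 1) z) (hc : L.ddS p (q + 1) z c = 0) :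
    ∃ e : L.Stalk p q z, L.ddS p q z e = c := by
  obtain ⟨θ, h, rfl⟩ := L.exists_germ c
  rw [ddS_germ] at hc
  obtain ⟨u, hu, hz, hv⟩ := L.van_hop hs h ((L.germ_eq_zero _).1 hc)
  have he : L.SFat z (hop (fun f => L.lf f z) θ) := ⟨u, hop_sf hu _, hz⟩
  refine ⟨L.germ _ he, ?_⟩
  rw [ddS_germ, germ_eq_iff]
  have e1 : TD.dd (hop (fun f => L.lf f z) θ) - θ = -hop (fun f => L.lf f z) (TD.dd θ) := by
    have h1 := hop_id hu (fun f => L.lf f z)
    rw [sub_eq_iff_eq_add, neg_add_eq_sub, eq_sub_iff_add_eq]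
    exact h1
  rw [e1]
  exact (L.VanM p (q + 1) z).neg_mem hv

theorem poincare0 (hs : L.StarAt z) (c : L.Stalk p 0 z) (hc : L.ddS p 0 z c = 0) :
    c ∈ L.Lp p z := by
  obtain ⟨θ, h, rfl⟩ := L.exists_germ c
  rw [ddS_germ] at hc
  obtain ⟨u, hu, hz, hv⟩ := L.van_hop hs h ((L.germ_eq_zero _).1 hc)
  have hf : L.SFat z (frz (fun f => L.lf f z) θ) := ⟨u, frz_sf hu _, hz⟩
  have e1 : L.germ θ h = L.germ (frz (fun f => L.lf f z) θ) hf := by
    rw [germ_eq_iff]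
    have e2 : θ - frz (fun f => L.lf f z) θ = hop (fun f => L.lf f z) (TD.dd θ) := by
      have h1 := hop_zero hu (fun f => L.lf f z)
      rw [sub_eq_iff_eq_add, add_comm]
      exact h1.symm
    rw [e2]
    exact hv
  rw [e1]
  exact L.germ_cst_mem (fun _ _ _ _ => rfl) hf

end LogSpace

end Pool.Agent.TD
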