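import Pool.Agent.TD.A.Smo1
import Pool.Agent.TD.A.St1

/-! Block A: sections of type (0,0). -/

open scoped ContDiff Topology

namespace Pool.Agent.TD

namespace LogSpace

variable {X Φ : Type} [TopologicalSpace X] (L : LogSpace X Φ) {p q : ℕ} {z : X}

/-- A smooth function of the coordinates in `s` is a form of type `(0,0)`. -/
private lemma isSF_fun (s : Finset Φ) {a : (s → ℝ) → ℝ} (ha : ContDiff ℝ ∞ a) :
    IsSF s (fun x _ _ => a (rs s x) : Raw Φ 0 0) := by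
  refine ⟨fun y => ContinuousAlternatingMap.constOfIsEmptyLIE ℝ (s → ℝ)
    ((s → ℝ) [⋀^Fin 0]→L[ℝ] ℝ) (Fin 0) (ContinuousAlternatingMap.constOfIsEmptyLIE ℝ (s → ℝ)
      ℝ (Fin 0) (a y)), ?_, fun x w v => rfl⟩
  have h1 : ContDiff ℝ ∞ (fun y => ContinuousAlternatingMap.constOfIsEmptyLIE ℝ (s → ℝ)
      ℝ (Fin 0) (a y)) := (LinearIsometryEquiv.contDiff _).comp ha
  exact (LinearIsometryEquiv.contDiff _).comp h1

private lemma sfat_fun {s : Finset Φ} {a : (s → ℝ) → ℝ} (ha : ContDiff ℝ ∞ a)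
    (hs : ∀ f ∈ s, z ∈ L.dom f) : L.SFat z (fun x _ _ => a (rs s x) : Raw Φ 0 0) :=
  ⟨s, isSF_fun s ha, hs⟩

/-- Two `(0,0)`-germs are equal if the functions are equal near `z`. -/
private theorem germ00_eq' {s t : Finset Φ} {a : (s → ℝ) → ℝ} {b : (t → ℝ) → ℝ}
    (h : L.SFat z (fun x _ _ => a (rs s x) : Raw Φ 0 0))
    (k : L.SFat z (fun x _ _ => b (rs t x) : Raw Φ 0 0))
    (ha : ContDiff ℝ ∞ a) (hb : ContDiff ℝ ∞ b) (hs : ∀ f ∈ s, z ∈ L.dom f)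
    (ht : ∀ f ∈ t, z ∈ L.dom f) (e : ∀ᶠ z' in 𝓝 z, a (L.trop s z') = b (L.trop t z')) :
    L.germ _ h = L.germ _ k := by
  classical
  rw [germ_eq_iff]
  have h1 : s ⊆ s ∪ t := Finset.subset_union_left
  have h2 : t ⊆ s ∪ t := Finset.subset_union_right
  have hW : ∀ᶠ z' in 𝓝 z, ∀ f ∈ s ∪ t, z' ∈ L.dom f := by
    rw [Filter.eventually_all_finset]
    intro f hf
    refine (L.isOpen_dom f).mem_nhds ?_
    rcases Finset.mem_union.1 hf with h | h
    exacts [hs f h, ht f h]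
  have hsub : IsSF (s ∪ t) ((fun x _ _ => a (rs s x) : Raw Φ 0 0)
      - (fun x _ _ => b (rs t x) : Raw Φ 0 0)) := by
    have k1 := (isSF_fun s ha).mono h1
    have k2 := ((isSF_fun t hb).mono h2).smul (-1)
    have k3 := k1.add k2
    rwa [neg_one_smul, ← sub_eq_add_neg] at k3
  refine ⟨s ∪ t, hsub, {z' | (∀ f ∈ s ∪ t, z' ∈ L.dom f) ∧ a (L.trop s z') = b (L.trop t z')},
    hW.and e, fun f hf z' hz' => hz'.1 f hf, ?_⟩
  intro σ hσ hσP x w v hx hw hv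
  obtain ⟨z', hz', e'⟩ := hσP hx
  have e1 : rs s x = L.trop s z' := by
    rw [← rst_rs h1 x, ← L.rst_trop h1 z', e']
  have e2 : rs t x = L.trop t z' := by
    rw [← rst_rs h2 x, ← L.rst_trop h2 z', e']
  change a (rs s x) - b (rs t x) = 0
  rw [e1, e2, hz'.2, sub_self]

/-- The section of type `(0,0)` of a smooth function, with the domains. -/
private theorem exists_toG' (g : X → ℝ) (hg : L.Smooth g) : ∃ c : L.G 0 0, ∀ z, ∃ s : Finset Φ,
    ∃ a : (s → ℝ) → ℝ, ContDiff ℝ ∞ a ∧ (∀ f ∈ s, z ∈ L.dom f) ∧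
      (∀ᶠ z' in 𝓝 z, g z' = a (L.trop s z')) ∧
      ∀ᶠ z' in 𝓝 z, ∃ h : L.SFat z' (fun x _ _ => a (rs s x) : Raw Φ 0 0),
        c.1 z' = L.germ (fun x _ _ => a (rs s x)) h := by
  choose s hs a ha e using hg
  have key : ∀ z, ∀ᶠ z' in 𝓝 z, ∃ h : L.SFat z' (fun x _ _ => a z (rs (s z) x) : Raw Φ 0 0),
      L.germ (fun x _ _ => a z' (rs (s z') x)) (L.sfat_fun (ha z') (hs z'))
        = L.germ (fun x _ _ => a z (rs (s z) x)) h := by
    intro z
    have hW : ∀ᶠ z' in 𝓝 z, ∀ f ∈ s z, z' ∈ L.dom f := by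
      rw [Filter.eventually_all_finset]
      exact fun f hf => (L.isOpen_dom f).mem_nhds (hs z f hf)
    filter_upwards [hW, (eventually_eventually_nhds.2 (e z))] with z' h1 h2
    refine ⟨L.sfat_fun (ha z) h1, ?_⟩
    refine L.germ00_eq' _ _ (ha z') (ha z) (hs z') h1 ?_
    filter_upwards [e z', h2] with y k1 k2
    rw [← k1, k2]
  refine ⟨⟨fun z => L.germ (fun x _ _ => a z (rs (s z) x)) (L.sfat_fun (ha z) (hs z)),
    fun z => ⟨_, key z⟩⟩, fun z => ⟨s z, a z, ha z, hs z, e z, key z⟩⟩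

/-- The section of type `(0,0)` of a smooth function. -/
theorem exists_toG (g : X → ℝ) (hg : L.Smooth g) : ∃ c : L.G 0 0, ∀ z, ∃ s : Finset Φ,
    ∃ a : (s → ℝ) → ℝ, ContDiff ℝ ∞ a ∧ (∀ᶠ z' in 𝓝 z, g z' = a (L.trop s z')) ∧
      ∀ᶠ z' in 𝓝 z, ∃ h : L.SFat z' (fun x _ _ => a (rs s x) : Raw Φ 0 0),
        c.1 z' = L.germ (fun x _ _ => a (rs s x)) h := by
  obtain ⟨c, hc⟩ := L.exists_toG' g hg
  refine ⟨c, fun z => ?_⟩
  obtain ⟨s, a, h1, -, h3, h4⟩ := hc z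
  exact ⟨s, a, h1, h3, h4⟩

/-- Two `(0,0)`-germs are equal if the functions are equal near `z`. -/
theorem germ00_eq {s t : Finset Φ} {a : (s → ℝ) → ℝ} {b : (t → ℝ) → ℝ}
    (h : L.SFat z (fun x _ _ => a (rs s x) : Raw Φ 0 0))
    (k : L.SFat z (fun x _ _ => b (rs t x) : Raw Φ 0 0))
    (ha : ContDiff ℝ ∞ a) (hb : ContDiff ℝ ∞ b) (hs : ∀ f ∈ s, z ∈ L.dom f)
    (ht : ∀ f ∈ t, z ∈ L.dom f) (e : ∀ᶠ z' in 𝓝 z, a (L.trop s z') = b (L.trop t z')) :
    L.germ _ h = L.germ _ k :=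
  L.germ00_eq' h k ha hb hs ht e

/-- Multiplication of global sections by a smooth function. -/
theorem exists_mulG (g : X → ℝ) (hg : L.Smooth g) (p q : ℕ) : ∃ M : L.G p q →ₗ[ℝ] L.G p q,
    (∀ c z, (∀ᶠ z' in 𝓝 z, g z' = 1) → (M c).1 z = c.1 z) ∧
    (∀ c z, (∀ᶠ z' in 𝓝 z, g z' = 0) → (M c).1 z = 0) ∧
    (∀ c z, c.1 z = 0 → (M c).1 z = 0) := by
  obtain ⟨c₀, hc₀⟩ := L.exists_toG' g hg
  let M : L.G p q →ₗ[ℝ] L.G p q :=
    { toFun := fun c => L.muG p q c₀ c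
      map_add' := fun c c' => by
        apply Subtype.ext; funext z
        exact map_add (L.muS p q z (c₀.1 z)) (c.1 z) (c'.1 z)
      map_smul' := fun r c => by
        apply Subtype.ext; funext z
        exact (L.muS p q z (c₀.1 z)).map_smul r (c.1 z) }
  have hM : ∀ c z, (M c).1 z = L.muS p q z (c₀.1 z) (c.1 z) := fun _ _ => rfl
  refine ⟨M, ?_, ?_, ?_⟩
  · intro c z h1
    obtain ⟨s, a, ha, hs, e1, e2⟩ := hc₀ z
    obtain ⟨h, e3⟩ := e2.self_of_nhds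
    have h0 : L.SFat z (fun x _ _ => (fun _ => (1 : ℝ)) (rs (∅ : Finset Φ) x) : Raw Φ 0 0) :=
      L.sfat_fun (s := ∅) (a := fun _ => 1) contDiff_const (by simp)
    have e4 : c₀.1 z = L.oneS z := by
      rw [e3]
      refine L.germ00_eq' (t := ∅) (b := fun _ => 1) h h0 ha contDiff_const hs (by simp) ?_
      filter_upwards [h1, e1] with y k1 k2
      rw [← k2, k1]
    rw [hM, e4, muS_oneS]
  · intro c z h1
    obtain ⟨s, a, ha, hs, e1, e2⟩ := hc₀ z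
    obtain ⟨h, e3⟩ := e2.self_of_nhds
    have h0 : L.SFat z (fun x _ _ => (fun _ => (0 : ℝ)) (rs (∅ : Finset Φ) x) : Raw Φ 0 0) :=
      L.sfat_fun (s := ∅) (a := fun _ => 0) contDiff_const (by simp)
    have e4 : c₀.1 z = 0 := by
      rw [e3, ← L.germ_zero (p := 0) (q := 0) (z := z)]
      refine L.germ00_eq' (t := ∅) (b := fun _ => 0) h h0 ha contDiff_const hs (by simp) ?_
      filter_upwards [h1, e1] with y k1 k2
      rw [← k2, k1]
    rw [hM, e4, map_zero, LinearMap.zero_apply]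
  · intro c z h1
    rw [hM, h1, map_zero]

end LogSpace

end Pool.Agent.TD
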