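import Pool.Agent.TD.A2

/-! Block A: constant forms are combinations of symbols. -/

open scoped ContDiff Topology

namespace Pool.Agent.TD

section Raw
variable {Φ Φ' : Type} {p q : ℕ}

/-- A constant `(p,0)`-form in finitely many variables is a combination of products of the `dlg f`:
`sym f = dlg f_0 ∧ ... ∧ dlg f_(p-1)`. -/
def symR : (p : ℕ) → (Fin p → Φ) → Raw Φ p 0
  | 0, _ => one0
  | p + 1, f => wdg1 (dlg (f 0)) (symR p (fun i => f i.succ))

/-- The symbols are determinants. -/
lemma symR_eq_det (p : ℕ) (f : Fin p → Φ) (x : Φ → ℝ) (w : Fin 0 → Φ → ℝ) (v : Fin p → Φ → ℝ) :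
    symR p f x w v = Matrix.det (Matrix.of fun i j => v i (f j)) := by
  induction p with
  | zero =>
    rw [Matrix.det_fin_zero]
    rfl
  | succ p ih =>
    rw [Matrix.det_succ_column_zero]
    show (∑ j : Fin (p + 1), (-1 : ℝ) ^ (j : ℕ) * v j (f 0) *
      symR p (fun i => f i.succ) x w (fun i => v (j.succAbove i))) = _
    refine Finset.sum_congr rfl fun j _ => ?_
    rw [ih]
    rfl

/-- Expansion of a multilinear map on `ℝ^u`. -/
lemma multilin_expand [DecidableEq Φ] {u : Finset Φ} (B : (u → ℝ) [⋀^Fin p]→L[ℝ] ℝ) (v : Fin p → u → ℝ) :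
    B v = ∑ f : Fin p → u, (∏ i, v i (f i)) *
      B (fun i => (fun a : u => if f i = a then (1 : ℝ) else 0)) := by
  have e : v = fun i => ∑ a : u, v i a • (fun b : u => if a = b then (1 : ℝ) else 0) := by
    funext i b
    simp [Finset.sum_apply]
  have h1 : B v = B.toMultilinearMap (fun i => ∑ a : u, v i a •
      (fun b : u => if a = b then (1 : ℝ) else 0)) := by
    rw [← e]; rfl
  rw [h1, MultilinearMap.map_sum]
  refine Finset.sum_congr rfl fun f _ => ?_
  rw [MultilinearMap.map_smul_univ]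
  rfl

theorem cst_span {u : Finset Φ} {θ : Raw Φ p 0} (h : IsSF u θ) (hc : IsCst θ) :
    θ ∈ Submodule.span ℝ {x : Raw Φ p 0 | ∃ f : Fin p → Φ, (∀ i, f i ∈ u) ∧ x = symR p f} := by
  classical
  obtain ⟨α, -, hθ⟩ := h
  set B : (u → ℝ) [⋀^Fin p]→L[ℝ] ℝ := α (rs u 0) (fun i => Fin.elim0 i) with hB
  have hv : ∀ x w v, θ x w v = B (fun j => rs u (v j)) := by
    intro x w v
    rw [hc x 0 w v, hθ]
    have : (fun i => rs u (w i)) = (fun i => Fin.elim0 i) := Subsingleton.elim _ _
    rw [this]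
  set E : (Fin p → u) → ℝ := fun f =>
    B (fun i => (fun a : u => if f i = a then (1 : ℝ) else 0)) with hE
  have key : θ = ∑ f : Fin p → u, ((p.factorial : ℝ)⁻¹ * E f) • symR p (fun i => (f i : Φ)) := by
    funext x w v
    rw [Finset.sum_apply, Finset.sum_apply, Finset.sum_apply]
    have h1 : ∀ f : Fin p → u, (((p.factorial : ℝ)⁻¹ * E f) • symR p (fun i => (f i : Φ))) x w v
        = (p.factorial : ℝ)⁻¹ * ∑ σ : Equiv.Perm (Fin p), ((Equiv.Perm.sign σ : ℤ) : ℝ) *
          ((∏ i, v (σ i) (f i)) * E f) := by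
      intro f
      show ((p.factorial : ℝ)⁻¹ * E f) * symR p (fun i => (f i : Φ)) x w v = _
      rw [symR_eq_det, Matrix.det_apply', mul_assoc, Finset.mul_sum]
      congr 1
      refine Finset.sum_congr rfl fun σ _ => ?_
      simp only [Matrix.of_apply]
      ring
    rw [Finset.sum_congr rfl fun f _ => h1 f, ← Finset.mul_sum, Finset.sum_comm]
    have h2 : ∀ σ : Equiv.Perm (Fin p), ∑ f : Fin p → u, ((Equiv.Perm.sign σ : ℤ) : ℝ) *
        ((∏ i, v (σ i) (f i)) * E f) = B (fun j => rs u (v j)) := by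
      intro σ
      rw [← Finset.mul_sum]
      have h3 := multilin_expand B (fun i => rs u (v (σ i)))
      have h4 : ∑ f : Fin p → u, ((∏ i, v (σ i) (f i)) * E f) = B (fun i => rs u (v (σ i))) := by
        rw [h3]
        rfl
      have h5 : B (fun i => rs u (v (σ i)))
          = ((Equiv.Perm.sign σ : ℤ) : ℝ) * B (fun j => rs u (v j)) := by
        have h6 := B.toAlternatingMap.map_perm (fun j => rs u (v j)) σ
        have h7 : B.toAlternatingMap ((fun j => rs u (v j)) ∘ σ) = B (fun i => rs u (v (σ i))) := rfl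
        rw [← h7, h6]
        rw [Units.smul_def, zsmul_eq_mul]
        rfl
      rw [h4, h5, ← mul_assoc]
      have h8 : ((Equiv.Perm.sign σ : ℤ) : ℝ) * ((Equiv.Perm.sign σ : ℤ) : ℝ) = 1 := by
        rw [← Int.cast_mul, ← Units.val_mul, Int.units_mul_self]
        simp
      rw [h8, one_mul]
    rw [Finset.sum_congr rfl fun σ _ => h2 σ, Finset.sum_const, Finset.card_univ,
      Fintype.card_perm, Fintype.card_fin, nsmul_eq_mul, hv x w v, ← mul_assoc,
      inv_mul_cancel₀ (by positivity), one_mul]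
  rw [key]
  refine Submodule.sum_mem _ fun f _ => Submodule.smul_mem _ _ (Submodule.subset_span ?_)
  exact ⟨fun i => (f i : Φ), fun i => (f i).2, rfl⟩

end Raw

end Pool.Agent.TD
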