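import Pool.Agent.TD.A.St1

/-! Block A: the spaces Lp. -/

open scoped ContDiff Topology

namespace Pool.Agent.TD

namespace LogSpace

variable {X Φ : Type} [TopologicalSpace X] (L : LogSpace X Φ) {p q : ℕ} {z : X}

namespace St2

theorem symS_cons (f : Φ) (h : z ∈ L.dom f) (g : Fin p → Φ) (k : ∀ i, z ∈ L.dom (g i)) :
    L.wdS p 0 z (L.dlS f h) (L.symS p (fun i => L.dlS (g i) (k i))) ∈ L.Lp (p + 1) z := by
  refine Submodule.subset_span ⟨Fin.cons f g, fun i => ?_, rfl⟩
  refine Fin.cases ?_ (fun j => ?_) i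
  · exact h
  · exact k j

theorem wdS_one (f : Φ) (h : z ∈ L.dom f) :
    L.wdS 0 0 z (L.dlS f h) (L.oneS z) = L.dlS f h := by
  have e : wdg1 (dlg f) (one0 : Raw Φ 0 0) = dlg f := by
    funext x w v
    simp [wdg1, dlg, one0]
  exact L.germ_congr e _ _

end St2

theorem wdS_mem {a : L.Stalk 1 0 z} (ha : a ∈ L.L1 z) {c : L.Stalk p 0 z} (hc : c ∈ L.Lp p z) :
    L.wdS p 0 z a c ∈ L.Lp (p + 1) z := by
  induction ha using Submodule.span_induction with
  | mem a ha =>
    obtain ⟨f, h, rfl⟩ := ha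
    induction hc using Submodule.span_induction with
    | mem c hc =>
      obtain ⟨g, k, rfl⟩ := hc
      exact St2.symS_cons L f h g k
    | zero => rw [map_zero]; exact (L.Lp (p + 1) z).zero_mem
    | add b b' _ _ hb hb' => rw [map_add]; exact (L.Lp (p + 1) z).add_mem hb hb'
    | smul r b _ hb => rw [map_smul]; exact (L.Lp (p + 1) z).smul_mem r hb
  | zero => rw [map_zero]; exact (L.Lp (p + 1) z).zero_mem
  | add a a' _ _ ha ha' => rw [map_add]; exact (L.Lp (p + 1) z).add_mem ha ha'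
  | smul r a _ ha => rw [map_smul]; exact (L.Lp (p + 1) z).smul_mem r ha

/-- `Lp (p+1)` is spanned by the products of elements `dlS f` and elements of `Lp p`. -/
theorem Lp_succ : L.Lp (p + 1) z = Submodule.span ℝ {x | ∃ f, ∃ h : z ∈ L.dom f,
    ∃ c ∈ L.Lp p z, x = L.wdS p 0 z (L.dlS f h) c} := by
  apply le_antisymm
  · refine Submodule.span_le.2 ?_
    rintro x ⟨f, h, rfl⟩
    exact Submodule.subset_span ⟨f 0, h 0, _, Submodule.subset_span ⟨fun i => f i.succ,
      fun i => h i.succ, rfl⟩, rfl⟩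
  · refine Submodule.span_le.2 ?_
    rintro x ⟨f, h, c, hc, rfl⟩
    exact L.wdS_mem (Submodule.subset_span ⟨f, h, rfl⟩) hc

theorem Lp_zero : L.Lp 0 z = Submodule.span ℝ {L.oneS z} := by
  apply le_antisymm
  · refine Submodule.span_le.2 ?_
    rintro x ⟨f, h, rfl⟩
    exact Submodule.subset_span rfl
  · refine Submodule.span_le.2 ?_
    rintro x hx
    rw [Set.mem_singleton_iff] at hx
    subst hx
    exact Submodule.subset_span ⟨fun i => i.elim0, fun i => i.elim0, rfl⟩

theorem L1_eq : ∀ c : L.Stalk 1 0 z, c ∈ L.L1 z ↔ c ∈ L.Lp 1 z := by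
  have h1 : L.L1 z ≤ L.Lp 1 z := by
    refine Submodule.span_le.2 ?_
    rintro x ⟨f, h, rfl⟩
    exact Submodule.subset_span ⟨fun _ => f, fun _ => h, (St2.wdS_one L f h).symm⟩
  have h2 : L.Lp 1 z ≤ L.L1 z := by
    refine Submodule.span_le.2 ?_
    rintro x ⟨f, h, rfl⟩
    have e : L.symS 1 (fun i => L.dlS (f i) (h i)) = L.dlS (f 0) (h 0) :=
      St2.wdS_one L (f 0) (h 0)
    rw [e]
    exact Submodule.subset_span ⟨f 0, h 0, rfl⟩
  exact fun c => ⟨fun hc => h1 hc, fun hc => h2 hc⟩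

end LogSpace

end Pool.Agent.TD
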