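import Pool.Agent.TD.A0

/-! Block A: the differential of a form which vanishes on a set vanishes on this set. -/

open scoped ContDiff Topology

namespace Pool.Agent.TD.A

namespace Vdd

/-- The derivative, in directions tangent to a convex set, of a function which vanishes on this
convex set. -/
theorem fderiv_eq_zero {V : Type} [NormedAddCommGroup V] [NormedSpace ℝ V] {g : V → ℝ}
    {σ : Set V} (hσ : Convex ℝ σ) {a : V} (ha : a ∈ σ) (hg : DifferentiableAt ℝ g a)
    (h0 : ∀ y ∈ σ, g y = 0) {d : V} (hd : d ∈ vectorSpan ℝ σ) : fderiv ℝ g a d = 0 := by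
  have key : ∀ y ∈ σ, fderiv ℝ g a (y - a) = 0 := by
    intro y hy
    have h1 : HasDerivAt (fun t : ℝ => a + t • (y - a)) (y - a) 0 := by
      have := ((hasDerivAt_id (0 : ℝ)).smul_const (y - a)).const_add a
      simpa using this
    have h2 : HasFDerivAt g (fderiv ℝ g a) (a + (0 : ℝ) • (y - a)) := by
      rw [zero_smul, add_zero]
      exact hg.hasFDerivAt
    have h3 : HasDerivAt (fun t : ℝ => g (a + t • (y - a))) (fderiv ℝ g a (y - a)) 0 :=
      h2.comp_hasDerivAt (0 : ℝ) h1
    have h4 : HasDerivWithinAt (fun t : ℝ => g (a + t • (y - a))) 0 (Set.Icc 0 1) 0 := by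
      refine (hasDerivWithinAt_const (0 : ℝ) (Set.Icc (0 : ℝ) 1) (0 : ℝ)).congr ?_ ?_
      · intro t ht
        refine h0 _ ?_
        have := hσ.add_smul_sub_mem ha hy ht
        exact this
      · rw [zero_smul, add_zero]
        exact h0 a ha
    exact (uniqueDiffOn_Icc (zero_lt_one : (0 : ℝ) < 1) 0 ⟨le_rfl, zero_le_one⟩).eq_deriv _
      h3.hasDerivWithinAt h4
  rw [vectorSpan_eq_span_vsub_set_right ℝ ha] at hd
  refine Submodule.span_induction ?_ ?_ ?_ ?_ hd
  · rintro _ ⟨y, hy, rfl⟩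
    exact key y hy
  · exact map_zero _
  · intro x y _ _ hx hy
    rw [map_add, hx, hy, add_zero]
  · intro c x _ hx
    rw [map_smul, hx, smul_zero]

/-- The values of a smooth superform on fixed vectors. -/
theorem eval_cd {V : Type} [NormedAddCommGroup V] [NormedSpace ℝ V] {p q : ℕ} {α : SForm V p q}
    (h : ContDiff ℝ ∞ α) (W : Fin q → V) (U : Fin p → V) :
    ContDiff ℝ ∞ (fun y => α y W U) := by
  have h1 : ContDiff ℝ ∞ (fun y => (ContinuousAlternatingMap.apply ℝ V (V [⋀^Fin p]→L[ℝ] ℝ) W)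
      (α y)) := (ContinuousLinearMap.contDiff _).comp h
  exact (ContinuousLinearMap.contDiff (ContinuousAlternatingMap.apply ℝ V ℝ U)).comp h1

end Vdd

variable {Φ : Type} {p q : ℕ}

/-- The differential of a form which vanishes on `P` vanishes on `P`. -/
theorem van_dd {u : Finset Φ} {θ : Raw Φ p q} {P : Set (u → ℝ)} (hs : IsSF u θ)
    (h : VanOn u θ P) : VanOn u (dd θ) P := by
  obtain ⟨α, hα, hθ⟩ := hs
  intro σ hσ hσP x w v hx hw hv
  unfold dd
  refine Finset.sum_eq_zero fun i _ => ?_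
  obtain ⟨g, hg⟩ : ∃ g : (u → ℝ) → ℝ, g = fun y =>
      α y (fun j => rs u (w (i.succAbove j))) (fun j => rs u (v j)) := ⟨_, rfl⟩
  have hgd : Differentiable ℝ g := by
    rw [hg]
    exact (Vdd.eval_cd hα _ _).differentiable (by simp)
  have hg0 : ∀ y ∈ σ, g y = 0 := by
    intro y hy
    obtain ⟨x', rfl⟩ := rs_surjective u y
    have := h σ hσ hσP x' (fun j => w (i.succAbove j)) v hy (fun j => hw _) hv
    rw [hθ] at this
    rw [hg]
    exact this
  have e1 : (fun t : ℝ => θ (x + t • w i) (fun j => w (i.succAbove j)) v)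
      = fun t : ℝ => g (rs u x + t • rs u (w i)) := by
    funext t
    rw [hθ, hg, rs_add, rs_smul]
  have h1 : HasDerivAt (fun t : ℝ => rs u x + t • rs u (w i)) (rs u (w i)) 0 := by
    have := ((hasDerivAt_id (0 : ℝ)).smul_const (rs u (w i))).const_add (rs u x)
    simpa using this
  have h2 : HasFDerivAt g (fderiv ℝ g (rs u x)) (rs u x + (0 : ℝ) • rs u (w i)) := by
    rw [zero_smul, add_zero]
    exact (hgd _).hasFDerivAt
  have h3 : HasDerivAt (fun t : ℝ => g (rs u x + t • rs u (w i)))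
      (fderiv ℝ g (rs u x) (rs u (w i))) 0 := h2.comp_hasDerivAt (0 : ℝ) h1
  rw [e1, h3.deriv, Vdd.fderiv_eq_zero hσ hx (hgd _) hg0 (hw i), mul_zero]

end Pool.Agent.TD.A
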