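import Pool.Agent.TD.A0

/-! Block A: vanishing of products and of pull-backs. -/

open scoped ContDiff Topology

namespace Pool.Agent.TD.A

variable {Φ Φ' : Type} {p q : ℕ}

theorem van_wdg1_left {u : Finset Φ} {η : Raw Φ 1 0} {θ : Raw Φ p q} {P : Set (u → ℝ)}
    (h : VanOn u η P) : VanOn u (wdg1 η θ) P := by
  intro σ hσ hσP x w v hx hw hv
  show ∑ j : Fin (p + 1), (-1 : ℝ) ^ (j : ℕ) * η x ![] ![v j] *
    θ x w (fun i => v (j.succAbove i)) = 0
  refine Finset.sum_eq_zero fun j _ => ?_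
  have h1 : η x ![] ![v j] = 0 := by
    refine h σ hσ hσP x ![] ![v j] hx (fun i => i.elim0) (fun i => ?_)
    have : (![v j] : Fin 1 → Φ → ℝ) i = v j := by
      rw [Subsingleton.elim i 0]
      rfl
    rw [this]
    exact hv j
  rw [h1, mul_zero, zero_mul]

theorem van_wdg1_right {u : Finset Φ} {η : Raw Φ 1 0} {θ : Raw Φ p q} {P : Set (u → ℝ)}
    (h : VanOn u θ P) : VanOn u (wdg1 η θ) P := by
  intro σ hσ hσP x w v hx hw hv
  show ∑ j : Fin (p + 1), (-1 : ℝ) ^ (j : ℕ) * η x ![] ![v j] *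
    θ x w (fun i => v (j.succAbove i)) = 0
  refine Finset.sum_eq_zero fun j _ => ?_
  rw [h σ hσ hσP x w (fun i => v (j.succAbove i)) hx hw (fun i => hv _), mul_zero]

theorem van_mul0_left {u : Finset Φ} {g : Raw Φ 0 0} {θ : Raw Φ p q} {P : Set (u → ℝ)}
    (h : VanOn u g P) : VanOn u (mul0 g θ) P := by
  intro σ hσ hσP x w v hx hw hv
  show g x ![] ![] * θ x w v = 0
  rw [h σ hσ hσP x ![] ![] hx (fun i => i.elim0) (fun i => i.elim0), zero_mul]

theorem van_mul0_right {u : Finset Φ} {g : Raw Φ 0 0} {θ : Raw Φ p q} {P : Set (u → ℝ)}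
    (h : VanOn u θ P) : VanOn u (mul0 g θ) P := by
  intro σ hσ hσP x w v hx hw hv
  show g x ![] ![] * θ x w v = 0
  rw [h σ hσ hσP x w v hx hw hv, mul_zero]

/-- The linear map `ℝ^(φ u') → ℝ^u'` given by a map `φ` of index sets. -/
noncomputable def ixl [DecidableEq Φ] (φ : Φ' → Φ) (u' : Finset Φ') :
    (↥(Finset.image φ u') → ℝ) →L[ℝ] (u' → ℝ) :=
  ContinuousLinearMap.pi fun f => ContinuousLinearMap.proj
    (⟨φ f.1, Finset.mem_image_of_mem φ f.2⟩ : ↥(Finset.image φ u'))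

theorem ixl_apply [DecidableEq Φ] (φ : Φ' → Φ) (u' : Finset Φ')
    (x : ↥(Finset.image φ u') → ℝ) (f : u') :
    ixl φ u' x f = x ⟨φ f.1, Finset.mem_image_of_mem φ f.2⟩ := rfl

theorem ixl_rs [DecidableEq Φ] (φ : Φ' → Φ) (u' : Finset Φ') (x : Φ → ℝ) :
    ixl φ u' (rs (u'.image φ) x) = rs u' (x ∘ φ) := by
  ext f; rfl

theorem isSF_pullR [DecidableEq Φ] (φ : Φ' → Φ) {u' : Finset Φ'} {θ : Raw Φ' p q}
    (h : IsSF u' θ) : IsSF (u'.image φ) (pullR φ θ) := by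
  obtain ⟨α, hα, hθ⟩ := h
  refine ⟨spull (ixl φ u') α, spull_contDiff _ hα, fun x w v => ?_⟩
  show θ (x ∘ φ) (fun i => w i ∘ φ) (fun j => v j ∘ φ) = _
  rw [hθ, spull_apply]
  simp only [ixl_rs]

theorem mor_van {X Φ X' Φ' : Type} [TopologicalSpace X] [TopologicalSpace X'] {L : LogSpace X Φ}
    {L' : LogSpace X' Φ'} (m : Mor L L') {p q : ℕ} {z : X} {θ : Raw Φ' p q}
    (h : L'.Van (m.toFun z) θ) : L.Van z (pullR m.ix θ) := by
  classical
  obtain ⟨u', hu', V', hV', hd, hvan⟩ := h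
  refine ⟨u'.image m.ix, isSF_pullR m.ix hu', m.toFun ⁻¹' V',
    m.cont.continuousAt.preimage_mem_nhds hV', ?_, ?_⟩
  · intro f hf z' hz'
    obtain ⟨f', hf', rfl⟩ := Finset.mem_image.1 hf
    exact m.dom_sub f' z' (hd f' hf' hz')
  · intro σ hσ hσP x w v hx hw hv
    have himg : Convex ℝ (ixl m.ix u' '' σ) := hσ.linear_image (ixl m.ix u').toLinearMap
    have hsub : ixl m.ix u' '' σ ⊆ L'.trop u' '' V' := by
      rintro _ ⟨y, hy, rfl⟩
      obtain ⟨z', hz', rfl⟩ := hσP hy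
      refine ⟨m.toFun z', hz', ?_⟩
      ext f
      exact (m.lf_eq f.1 z' (hd f.1 f.2 hz')).symm
    show θ (x ∘ m.ix) (fun i => w i ∘ m.ix) (fun j => v j ∘ m.ix) = 0
    refine hvan _ himg hsub _ _ _ ?_ ?_ ?_
    · exact ⟨rs _ x, hx, ixl_rs m.ix u' x⟩
    · intro i
      have := vectorSpan_map_mem (ixl m.ix u').toLinearMap (hw i)
      rwa [show (ixl m.ix u').toLinearMap (rs _ (w i)) = rs u' (w i ∘ m.ix) from
        ixl_rs m.ix u' (w i)] at this
    · intro j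
      have := vectorSpan_map_mem (ixl m.ix u').toLinearMap (hv j)
      rwa [show (ixl m.ix u').toLinearMap (rs _ (v j)) = rs u' (v j ∘ m.ix) from
        ixl_rs m.ix u' (v j)] at this

end Pool.Agent.TD.A
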