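import Pool.Agent.TD.A0

/-! Block A: exterior product with a `(1,0)`-form, product with a function, pull-back, examples. -/

open scoped ContDiff Topology

namespace Pool.Agent.TD.A

variable {Φ Φ' : Type} {p q : ℕ}

section Aux

variable {V : Type} [NormedAddCommGroup V] [NormedSpace ℝ V]

/-- The linear form of an alternating map of one variable. -/
noncomputable def lin1 : (V [⋀^Fin 1]→L[ℝ] ℝ) →L[ℝ] (V →L[ℝ] ℝ) :=
  ((ContinuousAlternatingMap.ofSubsingletonLIE (𝕜 := ℝ) (E := V) (F := ℝ) (0 : Fin 1)).symm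
    |>.toContinuousLinearEquiv.toContinuousLinearMap)

theorem lin1_contDiff : ContDiff ℝ ∞ (fun c : V [⋀^Fin 1]→L[ℝ] ℝ => lin1 c) := by
  fun_prop

theorem lin1_apply (c : V [⋀^Fin 1]→L[ℝ] ℝ) (u : V) : lin1 c u = c ![u] := by
  have h : (![u] : Fin 1 → V) = fun _ => u := by
    ext i
    fin_cases i
    rfl
  rw [h]
  rfl

/-- Left exterior product of linear forms with alternating forms. -/
noncomputable def extB (p : ℕ) : (V →L[ℝ] ℝ) →L[ℝ]
    (V [⋀^Fin p]→L[ℝ] ℝ) →L[ℝ] (V [⋀^Fin (p + 1)]→L[ℝ] ℝ) :=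
  (ContinuousLinearMap.compL ℝ (V [⋀^Fin p]→L[ℝ] ℝ) (V →L[ℝ] (V [⋀^Fin p]→L[ℝ] ℝ))
    (V [⋀^Fin (p + 1)]→L[ℝ] ℝ) (ContinuousAlternatingMap.alternatizeUncurryFinCLM ℝ V ℝ)).comp
    (ContinuousLinearMap.smulRightL ℝ V (V [⋀^Fin p]→L[ℝ] ℝ))

theorem extB_contDiff : ContDiff ℝ ∞ (fun a : V →L[ℝ] ℝ => extB p a) := by
  fun_prop

theorem sgn_smul (n : ℕ) (x : ℝ) : (-1 : ℤ) ^ n • x = (-1 : ℝ) ^ n * x := by
  rcases Nat.even_or_odd n with he | ho
  · rw [he.neg_one_pow, he.neg_one_pow]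
    simp
  · rw [ho.neg_one_pow, ho.neg_one_pow]
    simp

theorem extB_apply (a : V →L[ℝ] ℝ) (c : V [⋀^Fin p]→L[ℝ] ℝ) (v : Fin (p + 1) → V) :
    extB p a c v = ∑ j : Fin (p + 1), (-1 : ℝ) ^ (j : ℕ) * a (v j)
      * c (fun i => v (j.succAbove i)) := by
  have h : extB p a c = ContinuousAlternatingMap.alternatizeUncurryFin (a.smulRight c) := rfl
  rw [h, ContinuousAlternatingMap.alternatizeUncurryFin_apply]
  refine Finset.sum_congr rfl fun j _ => ?_
  rw [ContinuousLinearMap.smulRight_apply]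
  show (-1 : ℤ) ^ (j : ℕ) • (a (v j) * c (fun i => v (j.succAbove i))) = _
  rw [sgn_smul, mul_assoc]

/-- Composition of linear maps with alternating maps is bilinear and bounded. -/
theorem comp_bil (E F G : Type) [NormedAddCommGroup E] [NormedSpace ℝ E] [NormedAddCommGroup F]
    [NormedSpace ℝ F] [NormedAddCommGroup G] [NormedSpace ℝ G] (q : ℕ) :
    IsBoundedBilinearMap ℝ (fun x : (F →L[ℝ] G) × (E [⋀^Fin q]→L[ℝ] F) =>
      x.1.compContinuousAlternatingMap x.2) where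
  add_left := fun _ _ _ => rfl
  smul_left := fun _ _ _ => rfl
  add_right := fun g x y => by
    ext v
    exact map_add g _ _
  smul_right := fun c g x => by
    ext v
    exact map_smul g _ _
  bound := ⟨1, one_pos, fun g x => by
    rw [one_mul]
    exact ContinuousLinearMap.norm_compContinuousAlternatingMap_le g x⟩

theorem cw_smooth {V F G : Type} [NormedAddCommGroup V] [NormedSpace ℝ V] [NormedAddCommGroup F]
    [NormedSpace ℝ F] [NormedAddCommGroup G] [NormedSpace ℝ G] {f : V → F →L[ℝ] G}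
    {β : V → V [⋀^Fin q]→L[ℝ] F} (hα : ContDiff ℝ ∞ f) (hβ : ContDiff ℝ ∞ β) :
    ContDiff ℝ ∞ (fun x => (f x).compContinuousAlternatingMap (β x)) :=
  (comp_bil V F G q).contDiff.comp (hα.prodMk hβ)

theorem ev_smooth {F : Type} [NormedAddCommGroup F] [NormedSpace ℝ F] (m : Fin p → V)
    {f : V → V [⋀^Fin p]→L[ℝ] F} (hα : ContDiff ℝ ∞ f) : ContDiff ℝ ∞ (fun x => f x m) := by
  have h : ContDiff ℝ ∞ (fun c : V [⋀^Fin p]→L[ℝ] F =>
    ContinuousAlternatingMap.apply ℝ V F m c) := by fun_prop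
  exact h.comp hα

theorem smul_smooth {W : Type} [NormedAddCommGroup W] [NormedSpace ℝ W] (f : V → ℝ) (g : V → W)
    (hf : ContDiff ℝ ∞ f) (hg : ContDiff ℝ ∞ g) : ContDiff ℝ ∞ (fun x => f x • g x) := hf.smul hg

/-- Exterior product of a superform of type `(1,0)` with a superform of type `(p,q)`. -/
noncomputable def extS (α : SForm V 1 0) (β : SForm V p q) : SForm V (p + 1) q := fun x =>
  (extB p (lin1 (α x ![]))).compContinuousAlternatingMap (β x)

theorem extS_apply (α : SForm V 1 0) (β : SForm V p q) (x : V) (w : Fin q → V)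
    (v : Fin (p + 1) → V) : extS α β x w v = ∑ j : Fin (p + 1), (-1 : ℝ) ^ (j : ℕ) *
      α x ![] ![v j] * β x w (fun i => v (j.succAbove i)) := by
  have h : extS α β x w v = extB p (lin1 (α x ![])) (β x w) v := rfl
  rw [h, extB_apply]
  refine Finset.sum_congr rfl fun j _ => ?_
  rw [lin1_apply]

theorem extS_smooth {α : SForm V 1 0} {β : SForm V p q} (hα : ContDiff ℝ ∞ α)
    (hβ : ContDiff ℝ ∞ β) : ContDiff ℝ ∞ (extS α β) :=
  cw_smooth (extB_contDiff.comp (lin1_contDiff.comp (ev_smooth ![] hα))) hβ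

/-- Product of a superform of type `(0,0)` with a superform of type `(p,q)`. -/
noncomputable def mulS (α : SForm V 0 0) (β : SForm V p q) : SForm V p q := fun x =>
  (α x ![] ![]) • β x

theorem mulS_smooth {α : SForm V 0 0} {β : SForm V p q} (hα : ContDiff ℝ ∞ α)
    (hβ : ContDiff ℝ ∞ β) : ContDiff ℝ ∞ (mulS α β) :=
  smul_smooth (W := V [⋀^Fin q]→L[ℝ] (V [⋀^Fin p]→L[ℝ] ℝ)) (fun x => α x ![] ![]) β
    (ev_smooth ![] (ev_smooth ![] hα)) hβ

end Aux

theorem sf_wdg1 {s : Finset Φ} {η : Raw Φ 1 0} {θ : Raw Φ p q} (k : IsSF s η) (h : IsSF s θ) :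
    IsSF s (wdg1 η θ) := by
  obtain ⟨α, hα, hη⟩ := k
  obtain ⟨β, hβ, hθ⟩ := h
  refine ⟨extS α β, extS_smooth hα hβ, fun x w v => ?_⟩
  rw [extS_apply]
  show ∑ j : Fin (p + 1), (-1 : ℝ) ^ (j : ℕ) * η x ![] ![v j] * θ x w (fun i => v (j.succAbove i))
    = _
  refine Finset.sum_congr rfl fun j _ => ?_
  rw [hη, hθ]
  have e1 : (fun i : Fin 0 => rs s ((![] : Fin 0 → Φ → ℝ) i)) = ![] := Subsingleton.elim _ _
  have e2 : (fun i : Fin 1 => rs s ((![v j] : Fin 1 → Φ → ℝ) i)) = ![rs s (v j)] := by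
    funext i
    fin_cases i
    rfl
  rw [e1, e2]

theorem sf_mul0 {s : Finset Φ} {g : Raw Φ 0 0} {θ : Raw Φ p q} (k : IsSF s g) (h : IsSF s θ) :
    IsSF s (mul0 g θ) := by
  obtain ⟨α, hα, hη⟩ := k
  obtain ⟨β, hβ, hθ⟩ := h
  refine ⟨mulS α β, mulS_smooth hα hβ, fun x w v => ?_⟩
  show g x ![] ![] * θ x w v = _
  rw [hη, hθ]
  have e1 : (fun i : Fin 0 => rs s ((![] : Fin 0 → Φ → ℝ) i)) = ![] := Subsingleton.elim _ _
  rw [e1]
  rfl

theorem sf_pullR [DecidableEq Φ] {s : Finset Φ'} {φ : Φ' → Φ} {θ : Raw Φ' p q} (h : IsSF s θ) :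
    IsSF (s.image φ) (pullR φ θ) := by
  obtain ⟨α, hα, hθ⟩ := h
  let R : (s.image φ → ℝ) →L[ℝ] (s → ℝ) := ContinuousLinearMap.pi fun f =>
    ContinuousLinearMap.proj (⟨φ f.1, Finset.mem_image_of_mem φ f.2⟩ : s.image φ)
  refine ⟨spull R α, spull_contDiff R hα, fun x w v => ?_⟩
  show θ (x ∘ φ) (fun i => w i ∘ φ) (fun j => v j ∘ φ) = _
  rw [hθ, spull_apply]
  rfl

theorem sf_dlg {s : Finset Φ} {f : Φ} (h : f ∈ s) : IsSF s (dlg f) := by
  refine ⟨fun _ => ContinuousAlternatingMap.constOfIsEmpty ℝ (s → ℝ) (Fin 0)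
    (ContinuousAlternatingMap.ofSubsingleton ℝ (s → ℝ) ℝ (0 : Fin 1)
      (ContinuousLinearMap.proj (⟨f, h⟩ : s))), contDiff_const, fun x w v => ?_⟩
  rfl

theorem sf_one0 (s : Finset Φ) : IsSF s (one0 : Raw Φ 0 0) :=
  ⟨fun _ => ContinuousAlternatingMap.constOfIsEmpty ℝ (s → ℝ) (Fin 0)
    (ContinuousAlternatingMap.constOfIsEmpty ℝ (s → ℝ) (Fin 0) (1 : ℝ)), contDiff_const,
    fun _ _ _ => rfl⟩

end Pool.Agent.TD.A
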